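import Pool.Agent.P8H74.ST.Core

/-!
# The Sato-Tate law of `USp(4)` for almost all Jacobians of curves of genus two: all the Weyl sums

The curves are all `y² = c 6 x⁶ + ... + c 0` with integral coefficients (every curve of genus two over `ℚ` has such an
equation). `AlmostAll A 𝓔`: all the properties `E ∈ 𝓔` hold, with the same constants, at all `n` between `y` and a power of the
height for all but the proportion `y ^ (-A)` of the vectors `c` of a box, and of the vectors `c` obtained from an arbitrary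
one by changing few digits.

(1) Unconditional: for arbitrary families of weights and of bounded test functions of the classes `s(p)` at `s` consecutive
primes the sums over the first `n` primes differ from the finite-field model by at most the square root of the sum of the squares
of the weights times `n ^ δ`.

(2) Given Weil's theorem and the theorem of Katz and Sarnak (Deligne's equidistribution theorem for the family of all the curves
of genus two over `F_p`): square-root cancellation in all the Weyl sums of the Sato-Tate group `USp(4)`, also jointly at `s`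
consecutive primes, uniformly in the representations of dimension at most `n ^ B`.

(3) Given the theorem of Katz and Sarnak for the continuous function `F`: the means of `F` converge to its integral.
-/

set_option autoImplicit false

namespace Pool.Agent.Results.MP_6dc561_nt.AllWeylSums

open Finset

/-! ### The curves and the coefficients of their Euler factors -/

/-- The number of the points over the finite field `F` of the smooth projective curve with the equation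
`y² = z 6 x⁶ + ... + z 0`: the affine points, and the points at infinity, which correspond to the square roots of `z 6` (there is
one if `z 6 = 0` and the degree is five). -/
noncomputable def points (F : Type) [CommRing F] (z : Fin 7 → F) : ℕ :=
  Nat.card {P : F × F // P.2 ^ 2 = ∑ i, z i * P.1 ^ (i : ℕ)} + Nat.card {t : F // t ^ 2 = z 6}

/-- `p` is an odd prime and `y² = z 6 x⁶ + ... + z 0` is a curve of genus two over `F_p`: the polynomial is separable, of
degree five or six. -/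
def Genus2 (p : ℕ) (z : Fin 7 → ZMod p) : Prop :=
  p.Prime ∧ p ≠ 2 ∧ (∑ i, Polynomial.C (z i) * Polynomial.X ^ (i : ℕ)).Separable ∧
    5 ≤ (∑ i, Polynomial.C (z i) * Polynomial.X ^ (i : ℕ)).natDegree

/-- The coefficient `a_1` of the normalized Euler factor `det (1 - T s(p)) = 1 + a_1 T + a_2 T ^ 2 + a_1 T ^ 3 + T ^ 4`:
`(#C(F_p) - (p + 1)) / p ^ (1 / 2)`. -/
noncomputable def a₁ (p : ℕ) (z : Fin 7 → ZMod p) : ℝ :=
  ((points (ZMod p) z : ℝ) - ((p : ℝ) + 1)) / Real.sqrt p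

open Classical in
/-- The coefficient `a_2` of the normalized Euler factor:
`((#C(F_p) - (p + 1)) ^ 2 + #C(F_{p ^ 2}) - (p ^ 2 + 1)) / (2 p)`. -/
noncomputable def a₂ (p : ℕ) (z : Fin 7 → ZMod p) : ℝ :=
  if h : p.Prime then
    haveI : Fact p.Prime := ⟨h⟩
    (((points (ZMod p) z : ℝ) - ((p : ℝ) + 1)) ^ 2 +
      ((points (GaloisField p 2) (fun i => algebraMap (ZMod p) (GaloisField p 2) (z i)) : ℝ) - ((p : ℝ) ^ 2 + 1))) / (2 * p)
  else 0

open Classical in
/-- The value of the test function `g` at the class `s(p)` of the curve with the coefficients `z` (`0` if the equation does not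
define a curve of genus two over `F_p`). A class function on `USp(4)` is a function of `a_1` and `a_2`. -/
noncomputable def test (g : ℕ → ℝ → ℝ → ℝ) (p : ℕ) (z : Fin 7 → ZMod p) : ℝ :=
  if Genus2 p z then g p (a₁ p z) (a₂ p z) else 0

/-- The mean of the test function over all the equations modulo `p`. -/
noncomputable def average (g : ℕ → ℝ → ℝ → ℝ) (p : ℕ) : ℝ :=
  (∑ m ∈ Fintype.piFinset (fun _ : Fin 7 => range p), test g p (fun j => (m j : ZMod p))) / (p : ℝ) ^ 7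

/-- The prime number `p_k`, `p_0 = 2`. -/
noncomputable def prime (k : ℕ) : ℕ := Nat.nth Nat.Prime k

/-- The reduction of the integer vector `c` modulo `p`. -/
def red (p : ℕ) (c : Fin 7 → ℤ) : Fin 7 → ZMod p := fun j => (c j : ZMod p)

/-! ### The irreducible characters of `USp(4)` -/

/-- `H x y (k + 3)` is the trace of `Sym ^ k g` if `det (1 - T g) = 1 + x T + y T ^ 2 + x T ^ 3 + T ^ 4`:
the generating function is `1 / det (1 - T g)`; `H x y k = 0` for `k = 0, 1, 2`. -/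
noncomputable def H (x y : ℝ) : ℕ → ℝ
  | 0 => 0
  | 1 => 0
  | 2 => 0
  | 3 => 1
  | k + 4 => -x * H x y (k + 3) - y * H x y (k + 2) - x * H x y (k + 1) - H x y k

/-- The irreducible character of `USp(4)` with the highest weight `(l 1 + l 2, l 2)`, as a polynomial in `a_1 = x`, `a_2 = y`
(Jacobi-Trudi formula `h_a (h_b + h_(b-2)) - h_(b-1) (h_(a+1) + h_(a-1))`, `a = l 1 + l 2`, `b = l 2`). -/
noncomputable def χ (l : ℕ × ℕ) (x y : ℝ) : ℝ :=
  H x y (l.1 + l.2 + 3) * (H x y (l.2 + 3) + H x y (l.2 + 1)) -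
    H x y (l.2 + 2) * (H x y (l.1 + l.2 + 4) + H x y (l.1 + l.2 + 2))

/-- Its dimension, by Weyl's formula. -/
noncomputable def dim (l : ℕ × ℕ) : ℝ :=
  ((l.1 : ℝ) + 1) * (l.2 + 1) * (l.1 + l.2 + 2) * (l.1 + 2 * l.2 + 3) / 6

lemma H_one (k : ℕ) : H (-4) 6 k = (k : ℝ) * (k - 1) * (k - 2) / 6 ∧
    H (-4) 6 (k + 1) = ((k : ℝ) + 1) * k * (k - 1) / 6 ∧ H (-4) 6 (k + 2) = ((k : ℝ) + 2) * (k + 1) * k / 6 ∧
      H (-4) 6 (k + 3) = ((k : ℝ) + 3) * (k + 2) * (k + 1) / 6 := by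
  induction k with
  | zero => norm_num [H]
  | succ k ih =>
      obtain ⟨h0, h1, h2, h3⟩ := ih
      refine ⟨?_, ?_, ?_, ?_⟩
      · rw [h1]; push_cast; ring
      · rw [show k + 1 + 1 = k + 2 from rfl, h2]; push_cast; ring
      · rw [show k + 1 + 2 = k + 3 from rfl, h3]; push_cast; ring
      · rw [show k + 1 + 3 = k + 4 from rfl, H, h0, h1, h2, h3]; push_cast; ring

/-- The value at the identity matrix (`a_1 = -4`, `a_2 = 6`) is the dimension. -/
theorem χ_one (l : ℕ × ℕ) : χ l (-4) 6 = dim l := by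
  obtain ⟨-, h1, h2, h3⟩ := H_one (l.1 + l.2)
  have h4 := (H_one (l.1 + l.2 + 1)).2.2.2
  obtain ⟨-, g1, g2, g3⟩ := H_one l.2
  unfold χ dim
  rw [show l.1 + l.2 + 4 = l.1 + l.2 + 1 + 3 from rfl, h4, h2, h3, g1, g2, g3]
  push_cast
  ring

/-! ### The known theorems used in parts (2) and (3) -/

/-- Weil: the eigenvalues of `s(p)` have absolute value one, so that `s(p)` is in `USp(4)` and the value of a character is at
most its dimension. -/
def Weil : Prop := ∀ (p : ℕ) (z : Fin 7 → ZMod p), Genus2 p z → ∀ l, |χ l (a₁ p z) (a₂ p z)| ≤ dim l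

/-- Deligne, Katz, Sarnak, for the representations in the set `P`: the mean of the character over the curves of genus two over
`F_p` is at most `C` times its dimension, divided by `p ^ (1 / 2)`. -/
def KatzSarnak (C : ℝ) (P : Set (ℕ × ℕ)) : Prop :=
  ∀ l ∈ P, ∀ p : ℕ, p.Prime → |average (fun _ => χ l) p| ≤ C * dim l / Real.sqrt p

/-- The integral of the class function `F(a_1, a_2)` over `USp(4)`, by Weyl's integration formula: the eigenvalues are
`exp (± i θ 1)`, `exp (± i θ 2)`. -/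
noncomputable def haar (F : ℝ → ℝ → ℝ) : ℝ :=
  8 / Real.pi ^ 2 * ∫ θ in Set.Icc (0 : ℝ) Real.pi ×ˢ Set.Icc (0 : ℝ) Real.pi,
    F (-(2 * Real.cos θ.1) - 2 * Real.cos θ.2) (2 + 4 * Real.cos θ.1 * Real.cos θ.2) *
      ((Real.cos θ.1 - Real.cos θ.2) ^ 2 * Real.sin θ.1 ^ 2 * Real.sin θ.2 ^ 2)

/-- Katz and Sarnak, for the function `F`: the mean of `F` over the curves of genus two over `F_p` converges to the integral of
`F` over `USp(4)`. -/
def KatzSarnakLimit (F : ℝ → ℝ → ℝ) : Prop :=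
  Filter.Tendsto (fun k => average (fun _ => F) (prime k)) Filter.atTop (nhds (haar F))

/-! ### Almost all curves -/

/-- The digit number `i` (counted from the right, beginning with `0`) of `n` in base `b`. -/
def digit (b i n : ℕ) : ℕ := n / b ^ i % b

/-- The number which arises from the number `N` with at most `K` digits in base `b`, if for every `i ∈ S`
the digit number `i` is replaced by `f i`. -/
def change (b K N : ℕ) (f : ℕ → ℕ) (S : Finset ℕ) : ℕ :=
  ∑ i ∈ range K, (if i ∈ S then f i else digit b i N) * b ^ i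

open Classical in
/-- The number of the choices of `r l` of `K l` positions for all `l` for which the vector of the numbers obtained by
changing the digits of the `N l` at the chosen positions (according to `f l`) does not have the property `E`. -/
noncomputable def exceptions (b : ℕ) (K r N : Fin 7 → ℕ) (f : Fin 7 → ℕ → ℕ) (E : (Fin 7 → ℕ) → Prop) : ℕ :=
  ((Fintype.piFinset (fun l => powersetCard (r l) (range (K l)))).filter
    (fun S => ¬ E (fun l => change b (K l) (N l) (f l) (S l)))).card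

open Classical in
/-- All properties `E n c ∈ 𝓔` hold for almost all coefficient vectors `c`, with the same constants `κ`, `y₀`. First part: `r l` of
the `K l` digits of arbitrary integers `N l` in base `b` are changed (each digit `j` to a prescribed different digit `f l j`), and
arbitrary integers `t l` are added; `E n c` holds for all `n` with `y ≤ n ≤ exp (κ r l)` for all but the proportion `y ^ (-A)` of the
choices of the positions. Second part: `c` runs through all vectors of a box with sides `2 ^ K`, and `y ≤ n ≤ exp (κ K)`, a power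
of the side. -/
def AlmostAll (A : ℕ) (𝓔 : Set (ℕ → (Fin 7 → ℤ) → Prop)) : Prop :=
  (∀ b : ℕ, 2 ≤ b → ∃ κ : ℝ, 0 < κ ∧ ∃ y₀ : ℕ, ∀ E ∈ 𝓔, ∀ (K r : Fin 7 → ℕ) (y : ℕ), (∀ l, 2 * r l ≤ K l) → y₀ ≤ y →
    ∀ N : Fin 7 → ℕ, (∀ l, N l < b ^ K l) → ∀ f : Fin 7 → ℕ → ℕ, (∀ l j, f l j < b ∧ f l j ≠ digit b j (N l)) →
    ∀ t : Fin 7 → ℤ,
      (exceptions b K r N f (fun m => ∀ n : ℕ, y ≤ n → (∀ l, (n : ℝ) ≤ Real.exp (κ * r l)) →
        E n (fun l => t l + m l)) : ℝ) ≤ 1 / (y : ℝ) ^ A * ∏ l, ((K l).choose (r l) : ℝ)) ∧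
  (∃ κ : ℝ, 0 < κ ∧ ∃ y₀ : ℕ, ∀ E ∈ 𝓔, ∀ K y : ℕ, y₀ ≤ y → ∀ t : Fin 7 → ℤ,
    (((Fintype.piFinset (fun _ : Fin 7 => range (2 ^ K))).filter (fun m : Fin 7 → ℕ =>
      ¬ ∀ n : ℕ, y ≤ n → (n : ℝ) ≤ Real.exp (κ * K) → E n (fun l => t l + m l))).card : ℝ) ≤
        1 / (y : ℝ) ^ A * ((2 : ℝ) ^ K) ^ 7)

theorem almostAll_iff (A : ℕ) (𝓔 : Set (ℕ → (Fin 7 → ℤ) → Prop)) :
    AlmostAll A 𝓔 ↔ Pool.Agent.P8H74.ST.AlmostAll 7 A 𝓔 := Iff.rfl

/-! ### The properties -/

/-- For all pairs of weights `w` and test functions `g i` in `Φ` the sum over the first `n` primes of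
`w k ∏ i, g i (s(p_(k+i)))` differs from the same sum for the finite-field model by at most
`(max 1 (∑ w k ^ 2)) ^ (1 / 2) n ^ δ`. -/
def Model (s : ℕ) (δ : ℝ) (Φ : Set ((ℕ → ℝ) × (Fin s → ℕ → ℝ → ℝ → ℝ))) (n : ℕ) (c : Fin 7 → ℤ) : Prop :=
  ∀ φ ∈ Φ, |∑ k ∈ range n, φ.1 k * (∏ i : Fin s, test (φ.2 i) (prime (k + i)) (red (prime (k + i)) c) -
    ∏ i : Fin s, average (φ.2 i) (prime (k + i)))| ≤ Real.sqrt (max 1 (∑ k ∈ range n, φ.1 k ^ 2)) * (n : ℝ) ^ δ

/-- For all weights in `W` and all irreducible characters `χ (l i)` of dimension at most `n ^ B`, trivial or in `P`, not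
all trivial, the Weyl sum over the first `n` primes of `w k ∏ i, χ (l i) (s(p_(k+i)))` is at most
`∏ i, dim (l i) * (max 1 (∑ w k ^ 2)) ^ (1 / 2) n ^ δ`. -/
def WeylSums (s : ℕ) (δ : ℝ) (B : ℕ) (P : Set (ℕ × ℕ)) (W : Set (ℕ → ℝ)) (n : ℕ) (c : Fin 7 → ℤ) : Prop :=
  ∀ w ∈ W, ∀ l : Fin s → ℕ × ℕ, (∀ i, l i = (0, 0) ∨ l i ∈ P) → (∃ i, l i ≠ (0, 0)) → (∀ i, dim (l i) ≤ (n : ℝ) ^ B) →
    |∑ k ∈ range n, w k * ∏ i : Fin s, test (fun _ => χ (l i)) (prime (k + i)) (red (prime (k + i)) c)| ≤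
      (∏ i, dim (l i)) * (Real.sqrt (max 1 (∑ k ∈ range n, w k ^ 2)) * (n : ℝ) ^ δ)


/-- For all weights in `W` the weighted mean of the function `∏ i, F i (s(p_(k+i)))` over the first `n` primes differs by at most
`ε` from its expected value. -/
def Limit (s : ℕ) (ε : ℝ) (F : Fin s → ℝ → ℝ → ℝ) (W : Set (ℕ → ℝ)) (n : ℕ) (c : Fin 7 → ℤ) : Prop :=
  ∀ w ∈ W, |∑ k ∈ range n, w k * ∏ i : Fin s, test (fun _ => F i) (prime (k + i)) (red (prime (k + i)) c) -
    (∏ i, haar (F i)) * ∑ k ∈ range n, w k| ≤ ε * n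

/-! ### Proofs -/

open Classical in
/-- truncation of a test function -/
noncomputable def cl (g : ℕ → ℝ → ℝ → ℝ) : ℕ → ℝ → ℝ → ℝ := fun p x y => max (-1) (min 1 (g p x y))

lemma cl_le (g : ℕ → ℝ → ℝ → ℝ) (p : ℕ) (x y : ℝ) : |cl g p x y| ≤ 1 := by
  unfold cl
  rw [abs_le]
  exact ⟨le_max_left _ _, max_le (by norm_num) (min_le_left _ _)⟩

lemma cl_eq (g : ℕ → ℝ → ℝ → ℝ) (h : ∀ p x y, |g p x y| ≤ 1) : cl g = g := by
  funext p x y
  have h1 := abs_le.1 (h p x y)
  unfold cl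
  rw [min_eq_right h1.2, max_eq_right h1.1]

lemma test_le (g : ℕ → ℝ → ℝ → ℝ) (h : ∀ p x y, |g p x y| ≤ 1) (p : ℕ) (z : Fin 7 → ZMod p) : |test g p z| ≤ 1 := by
  unfold test
  split_ifs
  · exact h _ _ _
  · simp

lemma average_eq (g : ℕ → ℝ → ℝ → ℝ) (p : ℕ) : average g p = Pool.Agent.P8H74.ST.avg 7 p (test g p) := rfl

lemma avg_add_const (p : ℕ) (hp : 0 < p) (g : (Fin 7 → ZMod p) → ℝ) (a : ℝ) :
    Pool.Agent.P8H74.ST.avg 7 p (fun z => g z - a) = Pool.Agent.P8H74.ST.avg 7 p g - a := by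
  unfold Pool.Agent.P8H74.ST.avg
  rw [sum_sub_distrib, sum_const, Fintype.card_piFinset]
  have : ((p : ℝ) ^ 7) ≠ 0 := by positivity
  simp only [card_range, prod_const, card_univ, Fintype.card_fin, nsmul_eq_mul]
  push_cast
  field_simp

lemma avg_le (p : ℕ) (hp : 0 < p) (g : (Fin 7 → ZMod p) → ℝ) (h : ∀ z, |g z| ≤ 1) :
    |Pool.Agent.P8H74.ST.avg 7 p g| ≤ 1 := by
  unfold Pool.Agent.P8H74.ST.avg
  have h0 : (0 : ℝ) < (p : ℝ) ^ 7 := by positivity
  rw [abs_div, abs_of_pos h0, div_le_one h0]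
  refine (abs_sum_le_sum_abs _ _).trans ?_
  refine (sum_le_sum fun m _ => h _).trans ?_
  rw [sum_const, Fintype.card_piFinset]
  simp

lemma average_le (g : ℕ → ℝ → ℝ → ℝ) (h : ∀ p x y, |g p x y| ≤ 1) (p : ℕ) (hp : 0 < p) : |average g p| ≤ 1 := by
  rw [average_eq]
  exact avg_le p hp _ (fun z => test_le g h p z)

lemma prod_sub_prod {s : ℕ} (f g : Fin s → ℝ) : ∏ i, f i - ∏ i, g i =
    ∑ S ∈ (univ : Finset (Fin s)).powerset.filter (fun S => S.Nonempty), ∏ i, (if i ∈ S then f i - g i else g i) := by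
  classical
  have h1 : ∏ i, f i = ∑ S ∈ (univ : Finset (Fin s)).powerset, ∏ i, (if i ∈ S then f i - g i else g i) := by
    have h2 : ∏ i, f i = ∏ i, ((f i - g i) + g i) := prod_congr rfl fun i _ => by ring
    rw [h2, prod_add]
    refine sum_congr rfl fun S _ => ?_
    rw [prod_ite]
    congr 1
    · congr 1
      ext i
      simp
    · congr 1
      ext i
      simp
  have h3 : ∏ i, g i = ∑ S ∈ (univ : Finset (Fin s)).powerset.filter (fun S => ¬ S.Nonempty),
      ∏ i, (if i ∈ S then f i - g i else g i) := by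
    have h4 : (univ : Finset (Fin s)).powerset.filter (fun S => ¬ S.Nonempty) = {∅} := by
      ext S
      simp [not_nonempty_iff_eq_empty]
    rw [h4, sum_singleton]
    simp
  rw [h1, h3, ← sum_filter_add_sum_filter_not _ (fun S : Finset (Fin s) => S.Nonempty)]
  ring

lemma two_pow_le (s n : ℕ) (hn : 2 ≤ n) : 2 ^ s ≤ n ^ s := Nat.pow_le_pow_left hn s

/-- Part (1). -/
theorem part_one (s : ℕ) (hs : 1 ≤ s) (δ : ℝ) (hδ : 0 < δ) (A B : ℕ) :
    AlmostAll A {E | ∃ Φ : ℕ → Set ((ℕ → ℝ) × (Fin s → ℕ → ℝ → ℝ → ℝ)), (∀ n, (Φ n).Finite ∧ (Φ n).ncard ≤ n ^ B) ∧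
      (∀ n, ∀ φ ∈ Φ n, (∀ k, |φ.1 k| ≤ 1) ∧ ∀ i p x y, |φ.2 i p x y| ≤ 1) ∧ E = fun n c => Model s δ (Φ n) n c} := by
  classical
  rw [almostAll_iff]
  have hcore := Pool.Agent.P8H74.ST.core 7 s (by norm_num) hs (δ / 2) (by positivity) A (B + s) 2 0 (by norm_num) le_rfl
  -- threshold
  have hev : ∀ᶠ n : ℕ in Filter.atTop, (2 : ℝ) ^ s ≤ (n : ℝ) ^ (δ / 2) :=
    tendsto_natCast_atTop_atTop.eventually ((tendsto_rpow_atTop (by positivity)).eventually (Filter.eventually_ge_atTop _))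
  obtain ⟨n₀, hn₀⟩ := Filter.eventually_atTop.1 hev
  refine hcore.mono (n₀ + 2) ?_
  rintro F ⟨Φ, hΦ, hΦb, rfl⟩
  refine ⟨Pool.Agent.P8H74.ST.CoreProp (δ / 2) (((ℕ → ℝ) × (Fin s → ℕ → ℝ → ℝ → ℝ)) × Finset (Fin s))
    (fun n => (hΦ n).1.toFinset ×ˢ (univ : Finset (Fin s)).powerset.filter (fun S => S.Nonempty))
    (fun l => l.1.1)
    (fun l i p z => if i ∈ l.2 then test (cl (l.1.2 i)) p z - average (cl (l.1.2 i)) p else average (cl (l.1.2 i)) p),
    ⟨_, _, _, _, ?_, ?_, ?_, ?_, rfl⟩, ?_⟩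
  · intro n hn
    rw [card_product, ← Set.ncard_eq_toFinset_card _ (hΦ n).1, pow_add]
    apply Nat.mul_le_mul (hΦ n).2
    refine (card_filter_le _ _).trans ?_
    rw [card_powerset, card_univ, Fintype.card_fin]
    exact two_pow_le s n hn
  · intro n l hl k
    rw [mem_product, Set.Finite.mem_toFinset] at hl
    exact (hΦb n l.1 hl.1).1 k
  · intro l i p hp z
    have h1 := test_le (cl (l.1.2 i)) (cl_le _) p z
    have h2 := average_le (cl (l.1.2 i)) (cl_le _) p hp.pos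
    show |if i ∈ l.2 then test (cl (l.1.2 i)) p z - average (cl (l.1.2 i)) p else average (cl (l.1.2 i)) p| ≤ 2
    split_ifs
    · have h3 := abs_sub (test (cl (l.1.2 i)) p z) (average (cl (l.1.2 i)) p)
      linarith
    · linarith
  · intro n l hl
    rw [mem_product, mem_filter] at hl
    obtain ⟨i, hi⟩ := hl.2.2
    refine ⟨i, fun p hp => ?_⟩
    have h1 : (fun z : Fin 7 → ZMod p => if i ∈ l.2 then test (cl (l.1.2 i)) p z - average (cl (l.1.2 i)) p else
        average (cl (l.1.2 i)) p) = fun z => test (cl (l.1.2 i)) p z - average (cl (l.1.2 i)) p := by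
      funext z
      rw [if_pos hi]
    show |Pool.Agent.P8H74.ST.avg 7 p (fun z : Fin 7 → ZMod p => if i ∈ l.2 then test (cl (l.1.2 i)) p z -
      average (cl (l.1.2 i)) p else average (cl (l.1.2 i)) p)| ≤ 0 / Real.sqrt p
    rw [h1, avg_add_const p hp.pos, ← average_eq, sub_self, abs_zero, zero_div]
  · intro n c hn hE φ hφ
    have hn2 : 2 ≤ n := by omega
    have hb := hΦb n φ hφ
    have hcl : ∀ i, cl (φ.2 i) = φ.2 i := fun i => cl_eq _ (hb.2 i)
    set R : ℝ := Real.sqrt (max 1 (∑ k ∈ range n, φ.1 k ^ 2)) with hR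
    have hR0 : 0 ≤ R := Real.sqrt_nonneg _
    have h1 : ∀ S ∈ (univ : Finset (Fin s)).powerset.filter (fun S => S.Nonempty),
        |∑ k ∈ range n, φ.1 k * ∏ i : Fin s, (if i ∈ S then test (φ.2 i) (prime (k + i)) (red (prime (k + i)) c) -
          average (φ.2 i) (prime (k + i)) else average (φ.2 i) (prime (k + i)))| ≤ R * (n : ℝ) ^ (δ / 2) := by
      intro S hS
      have h2 := hE hn2 (φ, S) (by
        rw [mem_product, Set.Finite.mem_toFinset]
        exact ⟨hφ, hS⟩)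
      simp only [hcl] at h2
      exact h2
    have h3 : ∑ k ∈ range n, φ.1 k * (∏ i : Fin s, test (φ.2 i) (prime (k + i)) (red (prime (k + i)) c) -
        ∏ i : Fin s, average (φ.2 i) (prime (k + i))) =
        ∑ S ∈ (univ : Finset (Fin s)).powerset.filter (fun S => S.Nonempty), ∑ k ∈ range n, φ.1 k *
          ∏ i : Fin s, (if i ∈ S then test (φ.2 i) (prime (k + i)) (red (prime (k + i)) c) -
          average (φ.2 i) (prime (k + i)) else average (φ.2 i) (prime (k + i))) := by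
      rw [sum_comm]
      refine sum_congr rfl fun k _ => ?_
      rw [prod_sub_prod, mul_sum]
    rw [h3]
    refine (abs_sum_le_sum_abs _ _).trans ?_
    refine (sum_le_sum h1).trans ?_
    rw [sum_const, nsmul_eq_mul]
    have h4 : ((((univ : Finset (Fin s)).powerset.filter (fun S => S.Nonempty)).card : ℕ) : ℝ) ≤ (n : ℝ) ^ (δ / 2) := by
      refine le_trans ?_ (hn₀ n (by omega))
      have h5 : ((univ : Finset (Fin s)).powerset.filter (fun S => S.Nonempty)).card ≤ 2 ^ s := by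
        refine (card_filter_le _ _).trans ?_
        rw [card_powerset, card_univ, Fintype.card_fin]
      exact_mod_cast h5
    have hn0 : (0 : ℝ) < n := by exact_mod_cast (by omega : 0 < n)
    have h6 : (n : ℝ) ^ δ = (n : ℝ) ^ (δ / 2) * (n : ℝ) ^ (δ / 2) := by
      rw [← Real.rpow_add hn0]
      congr 1
      ring
    rw [h6]
    have h7 : 0 ≤ (n : ℝ) ^ (δ / 2) := by positivity
    nlinarith [mul_le_mul_of_nonneg_right h4 (mul_nonneg hR0 h7)]

lemma dim_pos (l : ℕ × ℕ) : 0 < dim l := by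
  unfold dim
  positivity

lemma dim_ge (l : ℕ × ℕ) : (l.1 : ℝ) + 1 ≤ dim l ∧ (l.2 : ℝ) + 1 ≤ dim l := by
  have h1 : (0 : ℝ) ≤ l.1 := Nat.cast_nonneg _
  have h2 : (0 : ℝ) ≤ l.2 := Nat.cast_nonneg _
  have h3 : (6 : ℝ) ≤ ((l.1 : ℝ) + l.2 + 2) * (l.1 + 2 * l.2 + 3) := by nlinarith [mul_nonneg h1 h1, mul_nonneg h1 h2, mul_nonneg h2 h2]
  have h4 : ((l.1 : ℝ) + 1) * (l.2 + 1) ≤ dim l := by
    unfold dim
    have h5 : (0 : ℝ) ≤ ((l.1 : ℝ) + 1) * (l.2 + 1) := by positivity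
    have h6 := mul_le_mul_of_nonneg_left h3 h5
    have h7 : ((l.1 : ℝ) + 1) * (l.2 + 1) * (l.1 + l.2 + 2) * (l.1 + 2 * l.2 + 3) / 6 =
      ((l.1 : ℝ) + 1) * (l.2 + 1) * (((l.1 : ℝ) + l.2 + 2) * (l.1 + 2 * l.2 + 3)) / 6 := by ring
    rw [h7]
    linarith
  constructor
  · nlinarith [mul_nonneg h1 h2]
  · nlinarith [mul_nonneg h1 h2]

lemma test_div (g : ℕ → ℝ → ℝ → ℝ) (a : ℝ) (p : ℕ) (z : Fin 7 → ZMod p) :
    test (fun p x y => g p x y / a) p z = test g p z / a := by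
  unfold test
  split_ifs
  · rfl
  · simp

/-- Part (2). -/
theorem part_two (hW : Weil) (C : ℝ) (P : Set (ℕ × ℕ)) (hKS : KatzSarnak C P) (s : ℕ) (hs : 1 ≤ s) (δ : ℝ)
    (hδ : 0 < δ) (A B : ℕ) :
    AlmostAll A {E | ∃ W : ℕ → Set (ℕ → ℝ), (∀ n, (W n).Finite ∧ (W n).ncard ≤ n ^ B) ∧
      (∀ n, ∀ w ∈ W n, ∀ k, |w k| ≤ 1) ∧ E = fun n c => WeylSums s δ B P (W n) n c} := by
  classical
  rw [almostAll_iff]
  have hcore := Pool.Agent.P8H74.ST.core 7 s (by norm_num) hs δ hδ A (B + (B + 1) * 2 * s) 1 |C| le_rfl (abs_nonneg C)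
  refine hcore.mono 2 ?_
  rintro F ⟨W, hWf, hWb, rfl⟩
  refine ⟨Pool.Agent.P8H74.ST.CoreProp δ ((ℕ → ℝ) × (Fin s → ℕ × ℕ))
    (fun n => (hWf n).1.toFinset ×ˢ (Fintype.piFinset (fun _ : Fin s => range (n ^ B + 1) ×ˢ range (n ^ B + 1))).filter
      (fun l => (∀ i, l i = (0, 0) ∨ l i ∈ P) ∧ ∃ i, l i ≠ (0, 0)))
    (fun l => l.1) (fun l i p z => test (fun _ x y => χ (l.2 i) x y / dim (l.2 i)) p z),
    ⟨_, _, _, _, ?_, ?_, ?_, ?_, rfl⟩, ?_⟩
  · intro n hn
    rw [card_product, ← Set.ncard_eq_toFinset_card _ (hWf n).1, pow_add]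
    apply Nat.mul_le_mul (hWf n).2
    refine (card_filter_le _ _).trans ?_
    rw [Fintype.card_piFinset, prod_const, card_univ, Fintype.card_fin, card_product, card_range]
    have h1 : n ^ B + 1 ≤ n ^ (B + 1) := by
      rw [pow_succ]
      have : 1 ≤ n ^ B := Nat.one_le_pow _ _ (by omega)
      nlinarith
    calc ((n ^ B + 1) * (n ^ B + 1)) ^ s ≤ (n ^ (B + 1) * n ^ (B + 1)) ^ s := Nat.pow_le_pow_left (Nat.mul_le_mul h1 h1) s
      _ = n ^ ((B + 1) * 2 * s) := by
          rw [← pow_add, ← pow_mul]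
          congr 1
          ring
  · intro n l hl k
    rw [mem_product, Set.Finite.mem_toFinset] at hl
    exact hWb n l.1 hl.1 k
  · intro l i p _ z
    show |test (fun _ x y => χ (l.2 i) x y / dim (l.2 i)) p z| ≤ 1
    unfold test
    split_ifs with hg
    · rw [abs_div, abs_of_pos (dim_pos _), div_le_one (dim_pos _)]
      exact hW p z hg (l.2 i)
    · simp
  · intro n l hl
    rw [mem_product, mem_filter] at hl
    obtain ⟨i, hi⟩ := hl.2.2.2
    refine ⟨i, fun p hp => ?_⟩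
    have hiP : l.2 i ∈ P := (hl.2.2.1 i).resolve_left hi
    have h1 := hKS (l.2 i) hiP p hp
    have h2 : Pool.Agent.P8H74.ST.avg 7 p (fun z => test (fun _ x y => χ (l.2 i) x y / dim (l.2 i)) p z) =
        average (fun _ => χ (l.2 i)) p / dim (l.2 i) := by
      unfold average Pool.Agent.P8H74.ST.avg
      rw [sum_congr rfl (fun m _ => test_div (fun _ => χ (l.2 i)) (dim (l.2 i)) p _), ← sum_div]
      ring
    show |Pool.Agent.P8H74.ST.avg 7 p (fun z => test (fun _ x y => χ (l.2 i) x y / dim (l.2 i)) p z)| ≤ |C| / Real.sqrt p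
    rw [h2, abs_div, abs_of_pos (dim_pos _), div_le_iff₀ (dim_pos _)]
    refine h1.trans ?_
    have hp0 : (0 : ℝ) < Real.sqrt p := Real.sqrt_pos.2 (by exact_mod_cast hp.pos)
    rw [div_mul_eq_mul_div]
    exact div_le_div_of_nonneg_right (mul_le_mul_of_nonneg_right (le_abs_self C) (dim_pos _).le) hp0.le
  · intro n c hn hE w hw l hl1 hl2 hl3
    have h1 := hE hn (w, l) (by
      rw [mem_product, Set.Finite.mem_toFinset, mem_filter, Fintype.mem_piFinset]
      refine ⟨hw, fun i => ?_, hl1, hl2⟩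
      rw [mem_product, mem_range, mem_range]
      have h2 := dim_ge (l i)
      have h3 := hl3 i
      constructor
      · have h4 : ((l i).1 : ℝ) < ((n ^ B + 1 : ℕ) : ℝ) := by push_cast; linarith
        exact_mod_cast h4
      · have h4 : ((l i).2 : ℝ) < ((n ^ B + 1 : ℕ) : ℝ) := by push_cast; linarith
        exact_mod_cast h4)
    have h2 : ∑ k ∈ range n, w k * ∏ i : Fin s, test (fun _ => χ (l i)) (prime (k + i)) (red (prime (k + i)) c) =
        (∏ i, dim (l i)) * ∑ k ∈ range n, w k * ∏ i : Fin s,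
          test (fun _ x y => χ (l i) x y / dim (l i)) (prime (k + i)) (red (prime (k + i)) c) := by
      rw [mul_sum]
      refine sum_congr rfl fun k _ => ?_
      have h3 : ∏ i : Fin s, test (fun _ => χ (l i)) (prime (k + i)) (red (prime (k + i)) c) =
          (∏ i, dim (l i)) * ∏ i : Fin s, test (fun _ x y => χ (l i) x y / dim (l i)) (prime (k + i))
            (red (prime (k + i)) c) := by
        rw [← prod_mul_distrib]
        refine prod_congr rfl fun i _ => ?_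
        rw [test_div (fun _ => χ (l i)) (dim (l i)), mul_div_cancel₀ _ (dim_pos _).ne']
      rw [h3]
      ring
    rw [h2, abs_mul, abs_of_pos (prod_pos fun i _ => dim_pos (l i))]
    exact mul_le_mul_of_nonneg_left h1 (prod_pos fun i _ => dim_pos (l i)).le

/-- Part (3). -/
theorem part_three (s : ℕ) (hs : 1 ≤ s) (F : Fin s → ℝ → ℝ → ℝ) (hF : ∀ i x y, |F i x y| ≤ 1)
    (hKS : ∀ i, KatzSarnakLimit (F i)) (ε : ℝ) (hε : 0 < ε) (A B : ℕ) :
    AlmostAll A {E | ∃ W : ℕ → Set (ℕ → ℝ), (∀ n, (W n).Finite ∧ (W n).ncard ≤ n ^ B) ∧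
      (∀ n, ∀ w ∈ W n, ∀ k, |w k| ≤ 1) ∧ E = fun n c => Limit s ε F (W n) n c} := by
  classical
  have h1 := part_one s hs (1 / 4) (by norm_num) A B
  rw [almostAll_iff] at h1 ⊢
  -- the finite-field model converges
  have hlim : Filter.Tendsto (fun k : ℕ => ∏ i : Fin s, average (fun _ => F i) (prime (k + i))) Filter.atTop
      (nhds (∏ i, haar (F i))) := by
    refine tendsto_finsetProd _ fun i _ => ?_
    exact (hKS i).comp (Filter.tendsto_add_atTop_nat (i : ℕ))
  have hlim2 : Filter.Tendsto (fun k : ℕ => |∏ i : Fin s, average (fun _ => F i) (prime (k + i)) - ∏ i, haar (F i)|)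
      Filter.atTop (nhds 0) := by
    have h2 := (hlim.sub_const (∏ i, haar (F i))).abs
    rwa [sub_self, abs_zero] at h2
  have hces := hlim2.cesaro
  have hev1 : ∀ᶠ n : ℕ in Filter.atTop, (n : ℝ)⁻¹ * ∑ k ∈ range n,
      |∏ i : Fin s, average (fun _ => F i) (prime (k + i)) - ∏ i, haar (F i)| ≤ ε / 2 :=
    (hces.eventually (gt_mem_nhds (by positivity : (0 : ℝ) < ε / 2))).mono fun n hn => hn.le
  have hev2 : ∀ᶠ n : ℕ in Filter.atTop, 2 / ε ≤ (n : ℝ) ^ (1 / 4 : ℝ) :=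
    tendsto_natCast_atTop_atTop.eventually ((tendsto_rpow_atTop (by norm_num)).eventually (Filter.eventually_ge_atTop _))
  obtain ⟨n₁, hn₁⟩ := Filter.eventually_atTop.1 (hev1.and hev2)
  refine h1.mono (n₁ + 2) ?_
  rintro G ⟨W, hWf, hWb, rfl⟩
  refine ⟨fun n c => Model s (1 / 4) ((fun w : ℕ → ℝ => (w, fun i _ => F i)) '' W n) n c,
    ⟨fun n => (fun w : ℕ → ℝ => (w, fun i _ => F i)) '' W n, fun n => ⟨(hWf n).1.image _,
      (Set.ncard_image_le (hWf n).1).trans (hWf n).2⟩, ?_, rfl⟩, ?_⟩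
  · rintro n φ ⟨w, hw, rfl⟩
    exact ⟨hWb n w hw, fun i _ x y => hF i x y⟩
  · intro n c hn hM w hw
    have hn0 : (0 : ℝ) < n := by exact_mod_cast (by omega : 0 < n)
    have hM1 := hM (w, fun i _ => F i) ⟨w, hw, rfl⟩
    obtain ⟨e1, e2⟩ := hn₁ n (by omega)
    have h3 : Real.sqrt (max 1 (∑ k ∈ range n, w k ^ 2)) ≤ (n : ℝ) ^ (1 / 2 : ℝ) := by
      rw [← Real.sqrt_eq_rpow]
      apply Real.sqrt_le_sqrt
      apply max_le
      · exact_mod_cast (by omega : 1 ≤ n)
      · calc ∑ k ∈ range n, w k ^ 2 ≤ ∑ _k ∈ range n, (1 : ℝ) := sum_le_sum fun k _ => by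
              rw [sq_le_one_iff_abs_le_one]
              exact hWb n w hw k
          _ = n := by simp
    have h4 : Real.sqrt (max 1 (∑ k ∈ range n, w k ^ 2)) * (n : ℝ) ^ (1 / 4 : ℝ) ≤ ε / 2 * n := by
      have h5 : (n : ℝ) ^ (1 / 2 : ℝ) * (n : ℝ) ^ (1 / 4 : ℝ) * (n : ℝ) ^ (1 / 4 : ℝ) = n := by
        rw [← Real.rpow_add hn0, ← Real.rpow_add hn0]
        norm_num
      have h6 : 0 < (n : ℝ) ^ (1 / 4 : ℝ) := by positivity
      have h7 : 0 < (n : ℝ) ^ (1 / 2 : ℝ) := by positivity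
      have h8 : 1 ≤ ε / 2 * (n : ℝ) ^ (1 / 4 : ℝ) := by
        rw [div_le_iff₀ hε] at e2
        linarith
      calc Real.sqrt (max 1 (∑ k ∈ range n, w k ^ 2)) * (n : ℝ) ^ (1 / 4 : ℝ)
          ≤ (n : ℝ) ^ (1 / 2 : ℝ) * (n : ℝ) ^ (1 / 4 : ℝ) := mul_le_mul_of_nonneg_right h3 h6.le
        _ = (n : ℝ) ^ (1 / 2 : ℝ) * (n : ℝ) ^ (1 / 4 : ℝ) * 1 := by ring
        _ ≤ (n : ℝ) ^ (1 / 2 : ℝ) * (n : ℝ) ^ (1 / 4 : ℝ) * (ε / 2 * (n : ℝ) ^ (1 / 4 : ℝ)) :=
            mul_le_mul_of_nonneg_left h8 (by positivity)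
        _ = ε / 2 * ((n : ℝ) ^ (1 / 2 : ℝ) * (n : ℝ) ^ (1 / 4 : ℝ) * (n : ℝ) ^ (1 / 4 : ℝ)) := by ring
        _ = ε / 2 * n := by rw [h5]
    have h9 : |∑ k ∈ range n, w k * (∏ i : Fin s, average (fun _ => F i) (prime (k + i)) - ∏ i, haar (F i))| ≤ ε / 2 * n := by
      refine (abs_sum_le_sum_abs _ _).trans ?_
      calc ∑ k ∈ range n, |w k * (∏ i : Fin s, average (fun _ => F i) (prime (k + i)) - ∏ i, haar (F i))|
          ≤ ∑ k ∈ range n, |∏ i : Fin s, average (fun _ => F i) (prime (k + i)) - ∏ i, haar (F i)| := by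
            refine sum_le_sum fun k _ => ?_
            rw [abs_mul]
            calc |w k| * _ ≤ 1 * _ := mul_le_mul_of_nonneg_right (hWb n w hw k) (abs_nonneg _)
              _ = _ := one_mul _
        _ = n * ((n : ℝ)⁻¹ * ∑ k ∈ range n, |∏ i : Fin s, average (fun _ => F i) (prime (k + i)) - ∏ i, haar (F i)|) := by
            rw [← mul_assoc, mul_inv_cancel₀ hn0.ne', one_mul]
        _ ≤ n * (ε / 2) := mul_le_mul_of_nonneg_left e1 hn0.le
        _ = ε / 2 * n := mul_comm _ _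
    have h10 : ∑ k ∈ range n, w k * ∏ i : Fin s, test (fun _ => F i) (prime (k + i)) (red (prime (k + i)) c) -
        (∏ i, haar (F i)) * ∑ k ∈ range n, w k =
        ∑ k ∈ range n, w k * (∏ i : Fin s, test (fun _ => F i) (prime (k + i)) (red (prime (k + i)) c) -
          ∏ i : Fin s, average (fun _ => F i) (prime (k + i))) +
        ∑ k ∈ range n, w k * (∏ i : Fin s, average (fun _ => F i) (prime (k + i)) - ∏ i, haar (F i)) := by
      rw [mul_sum, ← sum_sub_distrib, ← sum_add_distrib]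
      refine sum_congr rfl fun k _ => ?_
      ring
    rw [h10]
    refine (abs_add_le _ _).trans ?_
    have h11 := hM1.trans h4
    linarith

theorem result :
    (∀ s : ℕ, 1 ≤ s → ∀ δ : ℝ, 0 < δ → ∀ A B : ℕ,
      AlmostAll A {E | ∃ Φ : ℕ → Set ((ℕ → ℝ) × (Fin s → ℕ → ℝ → ℝ → ℝ)), (∀ n, (Φ n).Finite ∧ (Φ n).ncard ≤ n ^ B) ∧
        (∀ n, ∀ φ ∈ Φ n, (∀ k, |φ.1 k| ≤ 1) ∧ ∀ i p x y, |φ.2 i p x y| ≤ 1) ∧ E = fun n c => Model s δ (Φ n) n c}) ∧
    (Weil → ∀ (C : ℝ) (P : Set (ℕ × ℕ)), KatzSarnak C P → ∀ s : ℕ, 1 ≤ s → ∀ δ : ℝ, 0 < δ → ∀ A B : ℕ,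
      AlmostAll A {E | ∃ W : ℕ → Set (ℕ → ℝ), (∀ n, (W n).Finite ∧ (W n).ncard ≤ n ^ B) ∧
        (∀ n, ∀ w ∈ W n, ∀ k, |w k| ≤ 1) ∧ E = fun n c => WeylSums s δ B P (W n) n c}) ∧
    (∀ s : ℕ, 1 ≤ s → ∀ F : Fin s → ℝ → ℝ → ℝ, (∀ i x y, |F i x y| ≤ 1) → (∀ i, KatzSarnakLimit (F i)) →
      ∀ ε : ℝ, 0 < ε → ∀ A B : ℕ,
      AlmostAll A {E | ∃ W : ℕ → Set (ℕ → ℝ), (∀ n, (W n).Finite ∧ (W n).ncard ≤ n ^ B) ∧
        (∀ n, ∀ w ∈ W n, ∀ k, |w k| ≤ 1) ∧ E = fun n c => Limit s ε F (W n) n c}) :=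
  ⟨part_one, part_two, part_three⟩

end Pool.Agent.Results.MP_6dc561_nt.AllWeylSums
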