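import Pool.Agent.P8H12.ST.Stm
import Pool.Agent.P8H12.ST.T1B
import Pool.Agent.P8H55.ST.Bes
import Pool.Agent.P8H7.ST.Cnt
import Pool.Agent.P8H16.ST.Cur
import Pool.Agent.P8H94.ST.Fin3
import Pool.Agent.P8H43.ST.Low
import Pool.Agent.P8H69.ST.Lowf
import Pool.Agent.P8H53.ST.Sq
import Pool.Agent.P8H59.ST.Swj
import Pool.Agent.P8H88.ST.PiBt
import Pool.Agent.P8H21.ST.Cl
import Pool.Agent.P8H22.ST.Hi
import Pool.Agent.P8H41.ST.Num
import Pool.Agent.P8H41.ST.Per
import Pool.Agent.P8H65.ST.Pow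
import Pool.Agent.P8H75.ST.FinB
import Pool.Agent.P8H80.ST.Dua
import Pool.Agent.P8H7.ST.Grd
import Pool.Agent.P8H46.ST.Lo
import Pool.Agent.P8H55.ST.Nf
import Pool.Agent.P8H5.ST.Spec

/-!
# The odd half of the Sato-Tate conjecture for almost all quadratic twists of an abelian surface

Let `A` be any abelian surface over any number field `F`. Write `s (v)` for the conjugacy class of the
normalized Frobenius element at the place `v` in the Sato-Tate group. The twist `A_d` of `A` by a
squarefree integer `d` has the classes `χ_d(v) s (v)`, `χ_d(v) = (d / N v)`, and the places of degree one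
of `F (√d)` have the classes `s (v)` of the places with `χ_d(v) = 1`, each twice. So an odd class function
has the mean value zero over the classes of `A_d` (as the Sato-Tate conjecture predicts, because `-1`
belongs to the Sato-Tate group) if `χ_d` is not correlated with the function `v ↦ f (s (v))`, and in this
case the classes of `A` over `F (√d)` have the same distribution as the classes of `A` over `F`.

We prove unconditionally that this is true for almost all `d`, at all scales
`(log D) ^ 4 ≤ x ≤ exp (D ^ (1 - δ))` at once, for all Lipschitz functions at once, with a power of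
`log x` saved, and with constants which depend only on `δ` and the degree of `F` (parts 1 and 2); and that
for each bounded odd function, without any regularity, there are at most `[F : ℚ] ^ 2 / (ε ^ 2 η)`
squarefree integers `d` of whatever size such that the mean value exceeds `ε` on a set of scales of
density `η` (parts 3 and 4). Part 1 and part 3 are formulated for an arbitrary function `s` from the places of `F`
to a space `X`, for instance the space of the conjugacy classes of the Sato-Tate group of any abelian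
surface; parts 2 and 4 for the point counts of the reductions of a curve of genus two and of its twists.

Proof. By the theorem of Siegel and Walfisz the characters `χ_d` are almost orthogonal on the primes
`p ≤ x` for `|d|` at most a power of `log x`. So by Bessel's inequality at most `O (1 / ε ^ 2)` of them are
correlated with a given bounded function at the scale `x`. There are about `D ^ (1 - δ) / ε` scales
(up to the factor `1 + ε`) in the range, much less than there are squarefree integers `|d| ≤ D`. For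
smaller `x` the large sieve for the `k`-th powers of the sums over the primes, `x ^ k > 16 D ^ 3`, shows that
there are few exceptions. Coverings of `X` by small balls give all Lipschitz functions at once.

Packages by helpers 5, 7, 16, 21, 22, 41, 43, 46, 53, 55, 59, 65, 69, 75, 80, 88 and 94.
-/

set_option autoImplicit false

namespace Pool.Agent.Results.MP_6dc561_nt.AlmostAllTwists

open NumberField Polynomial IsDedekindDomain Pool.Agent.P8H12.ST

lemma cnt : S_CNT := Pool.Agent.P8H7.ST.t_CNT Pool.Agent.P8H59.ST.t_SWJ Pool.Agent.P8H55.ST.t_BES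
  Pool.Agent.P8H53.ST.t_SQ Pool.Agent.P8H88.ST.t_PI

lemma grd : S_GRD := Pool.Agent.P8H7.ST.t_GRD Pool.Agent.P8H88.ST.t_BT

lemma hi : S_HI := Pool.Agent.P8H22.ST.t_HI grd cnt

lemma lo : S_LO := Pool.Agent.P8H46.ST.t_LO grd (Pool.Agent.P8H21.ST.Cl.t_CL (Pool.Agent.P8H80.ST.t_DUA
  Pool.Agent.P8H41.ST.t_PER Pool.Agent.P8H53.ST.t_SQ) Pool.Agent.P8H65.ST.t_POW Pool.Agent.P8H88.ST.t_PI)
  Pool.Agent.P8H41.ST.t_NUM

lemma t1 : S_T1B := t_T1B lo hi Pool.Agent.P8H55.ST.t_NF Pool.Agent.P8H88.ST.t_PI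

lemma lowf : S_LOWF := Pool.Agent.P8H69.ST.t_LOWF (Pool.Agent.P8H43.ST.t_LOW Pool.Agent.P8H59.ST.t_SWJ
  Pool.Agent.P8H55.ST.t_BES Pool.Agent.P8H53.ST.t_SQ Pool.Agent.P8H88.ST.t_PI) Pool.Agent.P8H55.ST.t_NF

lemma spec : S_SPEC := Pool.Agent.P8H5.ST.t_SPEC Pool.Agent.P8H16.ST.t_CUR

/-- **Theorem.** Let `0 < δ < 1`.

(1) For every function `s` from the places of a number field `F` of degree at most `n` to a space `X`
which is covered by `K N ^ κ` balls of radius `1 / N`, for each `N`, all but `C D ^ (1 - c)` of the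
squarefree integers `|d| ≤ D` have the property that for all `x ≥ (log D) ^ 4` with `log x ≤ D ^ (1 - δ)` and all
functions `φ` on `X` with `|φ| ≤ 1` and Lipschitz constant `1` the sum of `χ_d(v) φ (s v)` over the places
with norm at most `x` is at most `C x / (log x) ^ (1 + c)`; `c` depends on `δ` and `κ`, `C` also on `n`, `K`.

(2) For every curve `y ^ 2 = f (x)` of genus two over `F` all but `C D ^ (1 - c)` of these `d` have the
property that for all these `x` the distribution of the pairs `(a₁, a₂)` of the twist `y ^ 2 = d f (x)`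
(places with norm at most `x`) is at distance at most `C (log x) ^ (-c)` from the symmetrization of that
of the curve (mean over `(a₁, a₂)` and `(-a₁, a₂)`), and the distribution over the places with
`χ_d(v) = 1` from that over all places.

(3) For every function `g` on the places of `F`, `|g| ≤ 1`, and all `ε, η > 0` at most `n ^ 2 / (ε ^ 2 η)`
squarefree integers `d` have the property that `|∑ χ_d(v) g v| ≥ ε y / log y` (places with norm at most
`y`) for at least `η x` of the `y ≤ x`, for all large `x`.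

(4) For every such curve and every function `φ` of `(a₁, a₂)` with `|φ| ≤ 1` and
`φ (-a₁, a₂) = - φ (a₁, a₂)` at most `n ^ 2 / (ε ^ 2 η)` squarefree integers `d` have the property that the
sum of `φ` over the pairs of the twist has absolute value at least `ε y / log y` for at least `η x` of
the `y ≤ x`, for all large `x`. -/
theorem result :
    (∀ δ : ℝ, 0 < δ → δ < 1 → ∀ κ : ℕ, ∃ c : ℝ, 0 < c ∧ c < 1 ∧ ∀ n K : ℕ, ∃ C : ℝ, 0 < C ∧
      ∀ (X : Type) [PseudoMetricSpace X],
        (∀ N : ℕ, 1 ≤ N → ∃ t : Finset X, t.card ≤ K * N ^ κ ∧ ∀ y, ∃ z ∈ t, dist y z ≤ 1 / N) →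
      ∀ (F : Type) [Field F] [NumberField F], Module.finrank ℚ F ≤ n →
      ∀ (s : HeightOneSpectrum (𝓞 F) → X) (D : ℕ), 1 ≤ D →
        (Nat.card {d : ℤ // d ∈ Sqf D ∧ ¬ ∀ x : ℕ, 2 ≤ x → Real.log D ^ 4 ≤ x →
          Real.log x ≤ (D : ℝ) ^ (1 - δ) → ∀ φ : X → ℝ, (∀ y, |φ y| ≤ 1) →
          (∀ y z, |φ y - φ z| ≤ dist y z) →
          |∑ᶠ v ∈ places F x, (chi d (norm v) : ℝ) * φ (s v)| ≤ C * (x / Real.log x ^ (1 + c))} : ℝ) ≤
          C * (D : ℝ) ^ (1 - c)) ∧
    (∀ δ : ℝ, 0 < δ → δ < 1 → ∃ c : ℝ, 0 < c ∧ c < 1 ∧ ∀ n : ℕ, ∃ C₀ : ℝ, 0 < C₀ ∧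
      ∀ (F : Type) [Field F] [NumberField F], Module.finrank ℚ F ≤ n →
      ∀ (f : (𝓞 F)[X]) (D : ℕ), 1 ≤ D →
        (Nat.card {d : ℤ // d ∈ Sqf D ∧ ¬ ∀ x : ℕ, 2 ≤ x → Real.log D ^ 4 ≤ x →
          Real.log x ≤ (D : ℝ) ^ (1 - δ) → ∀ φ ∈ Lip,
          |∑ᶠ v ∈ places F x,
            (φ (s (C (d : 𝓞 F) * f) v) - (φ (s f v) + φ (neg (s f v))) / 2)| ≤
            C₀ * (x / Real.log x ^ (1 + c)) ∧
          |∑ᶠ v ∈ places F x, (if chi d (norm v) = 1 then φ (s f v) else 0) -
            (∑ᶠ v ∈ places F x, φ (s f v)) / 2| ≤ C₀ * (x / Real.log x ^ (1 + c))} : ℝ) ≤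
        C₀ * (D : ℝ) ^ (1 - c)) ∧
    (∀ (n : ℕ) (F : Type) [Field F] [NumberField F], Module.finrank ℚ F ≤ n →
      ∀ g : HeightOneSpectrum (𝓞 F) → ℝ, (∀ v, |g v| ≤ 1) → ∀ ε η : ℝ, 0 < ε → 0 < η →
      ∀ T : Finset ℤ, (∀ d ∈ T, Squarefree d ∧ LowerDensity (fun y => ε * (y / Real.log y) ≤
        |∑ᶠ v ∈ places F y, (chi d (norm v) : ℝ) * g v|) η) →
        (T.card : ℝ) ≤ (n : ℝ) ^ 2 / (ε ^ 2 * η)) ∧
    (∀ (n : ℕ) (F : Type) [Field F] [NumberField F], Module.finrank ℚ F ≤ n → ∀ f : (𝓞 F)[X],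
      ∀ φ : ℝ × ℝ → ℝ, (∀ t, |φ t| ≤ 1) → (∀ t, φ (neg t) = - φ t) → ∀ ε η : ℝ, 0 < ε → 0 < η →
      ∀ T : Finset ℤ, (∀ d ∈ T, Squarefree d ∧ LowerDensity (fun y => ε * (y / Real.log y) ≤
        |∑ᶠ v ∈ places F y, φ (s (C (d : 𝓞 F) * f) v)|) η) →
        (T.card : ℝ) ≤ (n : ℝ) ^ 2 / (ε ^ 2 * η)) := by
  refine ⟨?_, Pool.Agent.P8H75.ST.t_FINB t1 Pool.Agent.P8H55.ST.t_NF spec, lowf,
    Pool.Agent.P8H94.ST.t_FIN3 lowf Pool.Agent.P8H55.ST.t_NF spec⟩
  intro δ hδ hδ1 κ
  obtain ⟨c, hc, hc1, h⟩ := t1 δ hδ hδ1 κ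
  refine ⟨c, hc, hc1, fun n K => ?_⟩
  obtain ⟨C, hC, h⟩ := h n K
  refine ⟨C, hC, fun X _ hX F _ _ hF s D hD => ?_⟩
  refine le_trans ?_ (h X hX F hF s D hD)
  norm_cast
  refine Nat.card_mono (finite_sub D _) ?_
  rintro d ⟨hd, hno⟩
  refine ⟨hd, ?_⟩
  push Not at hno
  obtain ⟨x, h0, h1, h2, φ, h3, h4, h5⟩ := hno
  exact ⟨x, φ, h0, h1, h2, ⟨h3, h4⟩, h5⟩

end Pool.Agent.Results.MP_6dc561_nt.AlmostAllTwists
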