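import Pool.Agent.P8H6.GT.Sy
import Pool.Agent.P8H6.GT.Ac
import Pool.Agent.P8H6.GT.MON
import Pool.Agent.P8H6.GT.NSQ
import Pool.Agent.P8H6.GT.SQU
import Pool.Agent.P8H20.GT.Loc
import Pool.Agent.P8H20.GT.Tw
import Pool.Agent.P8H20.GT.Wei
import Pool.Agent.P8H23.GT.Gau
import Pool.Agent.P8H99.GT.Geo

/-!
# Joint moments of the coefficients of the Euler factors of the Jacobians of almost all curves of genus two over a number field

Let `K` be a number field and `ω_0, ..., ω_(g-1)` elements of its ring of integers such that `1` is a linear combination of them with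
integral coefficients, for instance an integral basis.  We consider the curves

  `C : Y ^ 2 = c_6 X ^ 6 + c_5 X ^ 5 + ... + c_0`,   `c_k = ∑ m_(k,j) ω_j`,

with integers `m_(k,j) ≥ 0` which arise from arbitrary integers by changing a few digits.  Every curve of genus `2` over `K` has an
equation of this form.  For almost all of them, the coefficients `a_1`, `a_2` of the normalised Euler factors
`L_v(T / q_v ^ (1 / 2)) = 1 + a_1 T + a_2 T ^ 2 + a_1 T ^ 3 + T ^ 4` of the Jacobian have the joint moments of `USp(4)` up to the weight `7`,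
along arbitrary families of weights of the prime ideals and with square-root error.
-/

set_option autoImplicit false

namespace Pool.Agent.Results.MP_6dc561_nt.GenusTwoNumberFields

open Finset NumberField IsDedekindDomain
open Pool.Agent.N842.SQ (Rs rh)

section
variable (κ : Type) [Field κ]

/-- For a field `κ` with `q` elements the number `#C(κ_n)` of the points of the curve `C : Y ^ 2 = u 6 X ^ 6 + ... + u 0` over the field
`κ_n` with `q ^ n` elements, which consists of the elements `x` of an algebraic closure of `κ` with `x ^ (q ^ n) = x`: the solutions of the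
equation in `κ_n` and the points at infinity, which are given by the solutions of `y ^ 2 = u 6`. -/
noncomputable def points (n : ℕ) (u : Fin 7 → κ) : ℕ :=
  Nat.card {P : AlgebraicClosure κ × AlgebraicClosure κ // P.1 ^ (Nat.card κ ^ n) = P.1 ∧ P.2 ^ (Nat.card κ ^ n) = P.2 ∧
      P.2 ^ 2 = ∑ i, algebraMap κ (AlgebraicClosure κ) (u i) * P.1 ^ (i : ℕ)} +
    Nat.card {y : AlgebraicClosure κ // y ^ (Nat.card κ ^ n) = y ∧ y ^ 2 = algebraMap κ (AlgebraicClosure κ) (u 6)}

/-- The characteristic of `κ` is not `2` and the polynomial `u 6 X ^ 6 + ... + u 0` is separable of degree at least `5`, so that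
`Y ^ 2 = u 6 X ^ 6 + ... + u 0` is a smooth curve of genus `2`. -/
def Smooth (u : Fin 7 → κ) : Prop :=
  (2 : κ) ≠ 0 ∧ (∑ i, Polynomial.C (u i) * Polynomial.X ^ (i : ℕ)).Separable ∧
    5 ≤ (∑ i, Polynomial.C (u i) * Polynomial.X ^ (i : ℕ)).natDegree

open Classical in
/-- For a field `κ` with `q` elements the coefficient `a_1 = (#C(κ) - (q + 1)) / q ^ (1 / 2)` of the normalised Euler factor
`L(T / q ^ (1 / 2)) = 1 + a_1 T + a_2 T ^ 2 + a_1 T ^ 3 + T ^ 4` of the Jacobian of `C : Y ^ 2 = u 6 X ^ 6 + ... + u 0`, and `0` if `C`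
is not smooth. -/
noncomputable def a₁ (u : Fin 7 → κ) : ℝ :=
  if Smooth κ u then ((points κ 1 u : ℝ) - ((Nat.card κ : ℝ) + 1)) / Real.sqrt (Nat.card κ) else 0

open Classical in
/-- For a field `κ` with `q` elements the coefficient `a_2 = ((#C(κ) - (q + 1)) ^ 2 + #C(κ_2) - (q ^ 2 + 1)) / (2 q)` of the normalised Euler
factor, where `κ_2` is the field with `q ^ 2` elements, and `0` if `C` is not smooth. -/
noncomputable def a₂ (u : Fin 7 → κ) : ℝ :=
  if Smooth κ u then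
    (((points κ 1 u : ℝ) - ((Nat.card κ : ℝ) + 1)) ^ 2 + ((points κ 2 u : ℝ) - ((Nat.card κ : ℝ) ^ 2 + 1))) / (2 * Nat.card κ)
  else 0

end

/-- The mean of `a_1 ^ i a_2 ^ j` over the characteristic polynomials `1 + a_1 T + a_2 T ^ 2 + a_1 T ^ 3 + T ^ 4` of the matrices
in `USp(4)` (for `i + 2 j ≤ 7` and for odd `i`). -/
def moment : ℕ → ℕ → ℝ
  | 0, 0 => 1
  | 2, 0 => 1
  | 4, 0 => 3
  | 6, 0 => 14
  | 0, 1 => 1
  | 2, 1 => 2
  | 4, 1 => 8
  | 0, 2 => 2
  | 2, 2 => 5
  | 0, 3 => 4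
  | _, _ => 0

/-- The coefficients `c_k = ∑ m_(k,j) ω_j`. -/
def coeff {R : Type} [CommRing R] {g : ℕ} (ω : Fin g → R) (m : Fin (7 * g) → ℕ) (k : Fin 7) : R :=
  ∑ j, (m (finProdFinEquiv (k, j)) : R) * ω j

section
variable {K : Type} [Field K] [NumberField K]

/-- For all weights `w` in `W` and all `(i, j)` with `i + 2 j ≤ 7`, or with `i` odd and `i, j ≤ M`, the weighted sum of
`a_1(v) ^ i a_2(v) ^ j` over the prime ideals `v` with norm at most `T` differs from its expected value by at most `T ^ δ` times the sum of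
`(max 1 (∑ w(v) ^ 2)) ^ (1 / 2)` and of the `|w(v)|` for the `v` whose norm is not a prime number.  Here `c` are the coefficients of the
curve, `Rs v = 𝓞 K ⧸ v` is the residue field and `rh v` the reduction. -/
def Moments (δ : ℝ) (M : ℕ) (W : Set (HeightOneSpectrum (𝓞 K) → ℝ)) (T : ℕ) (c : Fin 7 → 𝓞 K) : Prop :=
  ∀ w ∈ W, ∀ i j : ℕ, (i + 2 * j ≤ 7 ∨ (Odd i ∧ i ≤ M ∧ j ≤ M)) →
    |∑ᶠ v ∈ {v : HeightOneSpectrum (𝓞 K) | Ideal.absNorm v.asIdeal ≤ T},
      w v * (a₁ (Rs v) (fun k => rh v (c k)) ^ i * a₂ (Rs v) (fun k => rh v (c k)) ^ j - moment i j)| ≤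
    (Real.sqrt (max 1 (∑ᶠ v ∈ {v : HeightOneSpectrum (𝓞 K) | Ideal.absNorm v.asIdeal ≤ T}, w v ^ 2)) +
      ∑ᶠ v ∈ {v : HeightOneSpectrum (𝓞 K) | Ideal.absNorm v.asIdeal ≤ T ∧ ¬ (Ideal.absNorm v.asIdeal).Prime}, |w v|) * (T : ℝ) ^ δ

end

/-- The digit number `i` (counted from the right, beginning with `0`) of `n` in base `b`. -/
def digit (b i n : ℕ) : ℕ := n / b ^ i % b

/-- The number which arises from the number `N` with at most `L` digits in base `b`, if for every `i ∈ S`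
the digit number `i` is replaced by `f i`. -/
def change (b L N : ℕ) (f : ℕ → ℕ) (S : Finset ℕ) : ℕ :=
  ∑ i ∈ range L, (if i ∈ S then f i else digit b i N) * b ^ i

open Classical in
/-- The number of the choices of `r j` of `L j` positions for all `j` for which the tuple of the numbers obtained by
changing the digits of the `N j` at the chosen positions (according to `f j`) does not have the property `P`. -/
noncomputable def exceptions {d : ℕ} (b : ℕ) (L r N : Fin d → ℕ) (f : Fin d → ℕ → ℕ) (P : (Fin d → ℕ) → Prop) : ℕ :=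
  ((Fintype.piFinset (fun j => powersetCard (r j) (range (L j)))).filter
    (fun S => ¬ P (fun j => change b (L j) (N j) (f j) (S j)))).card

lemma exc_eq {d : ℕ} (b : ℕ) (L r N : Fin d → ℕ) (f : Fin d → ℕ → ℕ) (P : (Fin d → ℕ) → Prop) :
    exceptions b L r N f P = Pool.Agent.Y57.FD.exceptions b L r N f P := rfl

lemma moment_eq (i j : ℕ) : moment i j = Pool.Agent.P8H6.GT.mom i j := rfl

attribute [local instance] Pool.Agent.N842.SQ.exFin
attribute [local instance] Pool.Agent.N842.SQ.rsFin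

lemma points_one (κ : Type) [Field κ] [Fintype κ] (u : Fin 7 → κ) :
    (points κ 1 u : ℝ) = (Nat.card κ : ℝ) + 1 + Pool.Agent.P8H6.GT.PS κ u := by
  unfold points
  rw [Pool.Agent.P8H6.GT.card_pts (algebraMap κ (AlgebraicClosure κ)) (Nat.card κ ^ 1) (by rw [pow_one, Nat.card_eq_fintype_card]),
    Pool.Agent.P8H6.GT.card_inf (algebraMap κ (AlgebraicClosure κ)) (Nat.card κ ^ 1) (by rw [pow_one, Nat.card_eq_fintype_card]),
    Pool.Agent.P8H6.GT.pts_PS, Nat.card_eq_fintype_card]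

lemma points_two (κ : Type) [Field κ] [Fintype κ] (u : Fin 7 → κ) :
    (points κ 2 u : ℝ) = (Nat.card κ : ℝ) ^ 2 + 1 +
      Pool.Agent.P8H6.GT.PS (Pool.Agent.N842.SQ.Ex κ 2) (fun i => algebraMap κ (Pool.Agent.N842.SQ.Ex κ 2) (u i)) := by
  have hcard : Nat.card κ ^ 2 = Fintype.card (Pool.Agent.N842.SQ.Ex κ 2) := by
    rw [Pool.Agent.N842.SQ.card_ex κ 2 (by norm_num), Nat.card_eq_fintype_card]
  obtain ⟨φ, _⟩ : ∃ φ : Pool.Agent.N842.SQ.Ex κ 2 →ₐ[κ] AlgebraicClosure κ, True := ⟨IsAlgClosed.lift, trivial⟩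
  have hφ : ∀ z : κ, algebraMap κ (AlgebraicClosure κ) z = (φ : Pool.Agent.N842.SQ.Ex κ 2 →+* AlgebraicClosure κ) (algebraMap κ (Pool.Agent.N842.SQ.Ex κ 2) z) :=
    fun z => (φ.commutes z).symm
  unfold points
  simp only [hφ]
  rw [Pool.Agent.P8H6.GT.card_pts (φ : Pool.Agent.N842.SQ.Ex κ 2 →+* AlgebraicClosure κ) (Nat.card κ ^ 2) hcard
      (fun i => algebraMap κ (Pool.Agent.N842.SQ.Ex κ 2) (u i)),
    Pool.Agent.P8H6.GT.card_inf (φ : Pool.Agent.N842.SQ.Ex κ 2 →+* AlgebraicClosure κ) (Nat.card κ ^ 2) hcard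
      (algebraMap κ (Pool.Agent.N842.SQ.Ex κ 2) (u 6))]
  have h1 := Pool.Agent.P8H6.GT.pts_PS (fun i => algebraMap κ (Pool.Agent.N842.SQ.Ex κ 2) (u i))
  rw [h1, ← hcard]
  push_cast
  ring

lemma a₁_eq (κ : Type) [Field κ] [Fintype κ] (u : Fin 7 → κ) : a₁ κ u = Pool.Agent.P8H6.GT.a1 κ u := by
  classical
  unfold a₁ Pool.Agent.P8H6.GT.a1
  by_cases h : Smooth κ u
  · rw [if_pos h, if_pos (show Pool.Agent.P8H6.GT.Good κ u from h), points_one, Nat.card_eq_fintype_card, add_sub_cancel_left]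
  · rw [if_neg h, if_neg (show ¬ Pool.Agent.P8H6.GT.Good κ u from h)]

lemma a₂_eq (κ : Type) [Field κ] [Fintype κ] (u : Fin 7 → κ) : a₂ κ u = Pool.Agent.P8H6.GT.a2 κ u := by
  classical
  unfold a₂ Pool.Agent.P8H6.GT.a2
  by_cases h : Smooth κ u
  · rw [if_pos h, if_pos (show Pool.Agent.P8H6.GT.Good κ u from h), points_one, points_two, Nat.card_eq_fintype_card]
    congr 1
    ring
  · rw [if_neg h, if_neg (show ¬ Pool.Agent.P8H6.GT.Good κ u from h)]

section
variable {K : Type} [Field K] [NumberField K]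

open Classical in
lemma fin_eq (T : ℕ) (F : HeightOneSpectrum (𝓞 K) → ℝ) :
    ∑ᶠ v ∈ {v : HeightOneSpectrum (𝓞 K) | Ideal.absNorm v.asIdeal ≤ T}, F v = ∑ v ∈ Pool.Agent.N842.HS.VT K T, F v := by
  have h2 : {v : HeightOneSpectrum (𝓞 K) | Ideal.absNorm v.asIdeal ≤ T} =
      ((Pool.Agent.N842.HS.VT K T : Finset (HeightOneSpectrum (𝓞 K))) : Set (HeightOneSpectrum (𝓞 K))) := by
    ext v
    rw [mem_coe, Pool.Agent.N842.HS.mem_VT, Set.mem_ofPred_eq]
  rw [h2, finsum_mem_coe_finset]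

open Classical in
lemma fin_eq' (T : ℕ) (F : HeightOneSpectrum (𝓞 K) → ℝ) :
    ∑ᶠ v ∈ {v : HeightOneSpectrum (𝓞 K) | Ideal.absNorm v.asIdeal ≤ T ∧ ¬ (Ideal.absNorm v.asIdeal).Prime}, F v =
      ∑ v ∈ (Pool.Agent.N842.HS.VT K T).filter (fun v => ¬ (Ideal.absNorm v.asIdeal).Prime), F v := by
  have h2 : {v : HeightOneSpectrum (𝓞 K) | Ideal.absNorm v.asIdeal ≤ T ∧ ¬ (Ideal.absNorm v.asIdeal).Prime} =
      (((Pool.Agent.N842.HS.VT K T).filter (fun v => ¬ (Ideal.absNorm v.asIdeal).Prime) : Finset (HeightOneSpectrum (𝓞 K))) :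
        Set (HeightOneSpectrum (𝓞 K))) := by
    ext v
    rw [mem_coe, mem_filter, Pool.Agent.N842.HS.mem_VT, Set.mem_ofPred_eq]
  rw [h2, finsum_mem_coe_finset]

end

/-- Let `K` be a number field, `1 ∈ ∑ ℤ ω_j`, `b ≥ 2` a base, `δ > 0` and `M, A, B ≥ 0` integers. There are `c > 0` and `y₀` such that for all
`r l`, `L l` (`l < 7 g`), `y` with `2 r l ≤ L l` and `y ≥ y₀` the following holds.

Let `0 ≤ N l < b ^ L l` be arbitrary integers, prescribe for every position `j` a digit `f l j` different from the digit of `N l` in base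
`b`, and let for every `T` an arbitrary set `W T` of at most `T ^ B` weights `w` with `|w(v)| ≤ 1` on the prime ideals of `K` be given. If one
chooses `r l` of the `L l` positions and replaces the digits of `N l` at these positions, then for all but at most a proportion `1 / y ^ A`
of the choices the curve `Y ^ 2 = c_6 X ^ 6 + ... + c_0` with the coefficients `c_k = ∑ m_(k,j) ω_j` formed with the numbers `m` obtained has
the following property: for all `T` with `y ≤ T ≤ exp (c r l)` for all `l`, all weights `w ∈ W T` and all `(i, j)` with `i + 2 j ≤ 7`, or with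
`i` odd and `i, j ≤ M`, the sum `∑ w(v) a_1(v) ^ i a_2(v) ^ j` over the prime ideals with norm at most `T` differs from `∑ w(v)` times the
mean of `a_1 ^ i a_2 ^ j` over `USp(4)` by at most `T ^ δ ((max 1 (∑ w(v) ^ 2)) ^ (1 / 2) + ∑' |w(v)|)`, where `∑'` is the sum over the prime
ideals whose norm is at most `T` and not a prime number. -/
theorem result {K : Type} [Field K] [NumberField K] {g : ℕ} (ω : Fin g → 𝓞 K) (hω : (1 : 𝓞 K) ∈ Submodule.span ℤ (Set.range ω))
    (b : ℕ) (hb : 2 ≤ b) (δ : ℝ) (hδ : 0 < δ) (M A B : ℕ) :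
    ∃ c : ℝ, 0 < c ∧ ∃ y₀ : ℕ, ∀ (L r : Fin (7 * g) → ℕ) (y : ℕ), (∀ l, 2 * r l ≤ L l) → y₀ ≤ y →
    ∀ N : Fin (7 * g) → ℕ, (∀ l, N l < b ^ L l) →
    ∀ f : Fin (7 * g) → ℕ → ℕ, (∀ l j, f l j < b ∧ f l j ≠ digit b j (N l)) →
    ∀ W : ℕ → Set (HeightOneSpectrum (𝓞 K) → ℝ), (∀ T, (W T).Finite ∧ (W T).ncard ≤ T ^ B) → (∀ T, ∀ w ∈ W T, ∀ v, |w v| ≤ 1) →
      (exceptions b L r N f
        (fun m => ∀ T : ℕ, y ≤ T → (∀ l, (T : ℝ) ≤ Real.exp (c * r l)) → Moments δ M (W T) T (coeff ω m)) : ℝ) ≤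
        1 / (y : ℝ) ^ A * ∏ l, ((L l).choose (r l) : ℝ) := by
  classical
  obtain ⟨c, hc, y₀, h⟩ := Pool.Agent.P8H6.GT.final Pool.Agent.P8H20.GT.wei (Pool.Agent.P8H20.GT.loc Pool.Agent.P8H20.GT.wei
    Pool.Agent.P8H20.GT.odd Pool.Agent.P8H20.GT.red (Pool.Agent.P8H6.GT.MON.thm Pool.Agent.P8H99.GT.geo Pool.Agent.P8H23.GT.t_GAU
      Pool.Agent.P8H6.GT.SQU.thm Pool.Agent.P8H6.GT.NSQ.thm)) b g ω hω hb M δ hδ A B
  refine ⟨c, hc, y₀, fun L r y hrL hy N hN f hf W hW hW1 => ?_⟩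
  rw [exc_eq]
  refine h L r y hrL hy N hN f hf W hW hW1 _ fun m hm => ?_
  intro T hyT hTr w hw i j hij
  rw [fin_eq, fin_eq, fin_eq']
  simp only [a₁_eq, a₂_eq, moment_eq]
  exact hm T hyT hTr w hw i j hij

end Pool.Agent.Results.MP_6dc561_nt.GenusTwoNumberFields
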