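import Pool.Agent.P8H6.GT.Pr
import Pool.Agent.P8H6.GT.Wr
import Pool.Agent.P8H20.GT.Cel
import Pool.Agent.P8H20.GT.Cml
import Pool.Agent.P8H20.GT.Cbd
import Pool.Agent.P8H44.GT.Cab

/-!
# Joint moments of the coefficients of the Euler factors of products of two elliptic curves over a number field and of Weil restrictions of
elliptic curves along quadratic extensions

Elements `c_k = ∑ m_(k,j) ω_j` are formed with integers `m_(k,j) ≥ 0` which arise from arbitrary integers by changing a few digits.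

(1) Let `K` be an arbitrary number field and `ω_0, ..., ω_(g-1)` elements of its ring of integers such that `1` is a linear combination of them
with integral coefficients, for instance an integral basis.  We consider the abelian surfaces `E_1 × E_2` over `K`, where

  `E_1 : Y ^ 2 = X ^ 3 + c_2 X ^ 2 + c_1 X + c_0`,   `E_2 : Y ^ 2 = X ^ 3 + c_5 X ^ 2 + c_4 X + c_3`.

The Sato-Tate group of `E_1 × E_2` for general `E_1`, `E_2` is `SU(2) × SU(2)`, and the class at `v` is given by the pair `(x_1(v), x_2(v))`,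
where the normalised Euler factor of `E_i` is `1 + x_i(v) T + T ^ 2`; thus the normalised Euler factor of the surface is
`1 + a_1 T + a_2 T ^ 2 + a_1 T ^ 3 + T ^ 4` with `a_1 = x_1 + x_2`, `a_2 = x_1 x_2 + 2`.

(2) Let `L / K` be a quadratic extension of arbitrary number fields and `ω_0, ..., ω_(g-1)` generators of the ring of integers of `L` as an
abelian group, for instance an integral basis.  We consider the abelian surfaces `A = Res_(L/K) E` over `K`, where

  `E : Y ^ 2 = X ^ 3 + c_2 X ^ 2 + c_1 X + c_0`.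

For general `E` the Sato-Tate group of `A` is the normaliser of `SU(2) × SU(2)` in `USp(4)`: the prime ideals `v` of `K` which split in `L`
have classes in `SU(2) × SU(2)`, up to the exchange of the factors, and those which are inert in `L` have classes in the other component.
The normalised Euler factor `1 + a_1 T + a_2 T ^ 2 + a_1 T ^ 3 + T ^ 4` of `A` at `v` is the product of the `1 + x(w) T + T ^ 2` for the two prime
ideals `w` above `v` if `v` splits, that is, `a_1 = x(w) + x(w')`, `a_2 = x(w) x(w') + 2`, and it is `1 + x(w) T ^ 2 + T ^ 4` for the prime ideal `w`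
above `v` if `v` is inert, that is, `a_1 = 0`, `a_2 = x(w)`.
-/

set_option autoImplicit false

namespace Pool.Agent.Results.MP_6dc561_nt.ProductsAndRestrictions

open Finset NumberField IsDedekindDomain
open Pool.Agent.N842.SQ (Rs rh)

section
variable (κ : Type) [Field κ]

/-- The number of the points of the curve `Y ^ 2 = X ^ 3 + u 2 X ^ 2 + u 1 X + u 0` over the field `κ`, with the point at infinity. -/
noncomputable def points (u : Fin 3 → κ) : ℕ :=
  Nat.card {P : κ × κ // P.2 ^ 2 = P.1 ^ 3 + ∑ i, u i * P.1 ^ (i : ℕ)} + 1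

/-- The characteristic of `κ` is not `2` and the polynomial `X ^ 3 + u 2 X ^ 2 + u 1 X + u 0` is separable, so that the curve
`Y ^ 2 = X ^ 3 + u 2 X ^ 2 + u 1 X + u 0` is an elliptic curve. -/
def Smooth (u : Fin 3 → κ) : Prop :=
  (2 : κ) ≠ 0 ∧ (Polynomial.X ^ 3 + ∑ i, Polynomial.C (u i) * Polynomial.X ^ (i : ℕ)).Separable

open Classical in
/-- For a field `κ` with `q` elements the coefficient `x = (#E(κ) - (q + 1)) / q ^ (1 / 2)` of the normalised Euler factor
`1 + x T + T ^ 2` of `E : Y ^ 2 = X ^ 3 + u 2 X ^ 2 + u 1 X + u 0`, and `0` if `E` is not smooth. -/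
noncomputable def trace (u : Fin 3 → κ) : ℝ :=
  if Smooth κ u then ((points κ u : ℝ) - ((Nat.card κ : ℝ) + 1)) / Real.sqrt (Nat.card κ) else 0

end

/-- The mean of `x ^ i` over the traces `x` of the matrices in `SU(2)` (for `i ≤ 5`). -/
def moment : ℕ → ℝ
  | 0 => 1
  | 2 => 1
  | 4 => 2
  | _ => 0

/-- The mean of `(x + y) ^ i (x y + 2) ^ j` over the pairs `(x, y)` of the traces of the matrices in `SU(2) × SU(2)` (for `i + j ≤ 5`),
by the binomial theorem. -/
def pairMoment (i j : ℕ) : ℝ :=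
  ∑ s ∈ range (i + 1), ∑ t ∈ range (j + 1), (i.choose s : ℝ) * (j.choose t : ℝ) * 2 ^ (j - t) * (moment (s + t) * moment (i - s + t))

/-- The coefficients `c_k = ∑ m_(k,j) ω_j`. -/
def coeff {R : Type} [CommRing R] {n g : ℕ} (ω : Fin g → R) (m : Fin (n * g) → ℕ) (k : Fin n) : R :=
  ∑ j, (m (finProdFinEquiv (k, j)) : R) * ω j

section
variable {K : Type} [Field K] [NumberField K]

/-- The number `x_1(v)` for the curve `E_1` with the coefficients `c 0, c 1, c 2`; here `Rs v = 𝓞 K ⧸ v` is the residue field and `rh v`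
the reduction. -/
noncomputable def x₁ (c : Fin 6 → 𝓞 K) (v : HeightOneSpectrum (𝓞 K)) : ℝ := trace (Rs v) (fun k : Fin 3 => rh v (c (Fin.castAdd 3 k)))

/-- The number `x_2(v)` for the curve `E_2` with the coefficients `c 3, c 4, c 5`. -/
noncomputable def x₂ (c : Fin 6 → 𝓞 K) (v : HeightOneSpectrum (𝓞 K)) : ℝ := trace (Rs v) (fun k : Fin 3 => rh v (c (Fin.natAdd 3 k)))

/-- For all weights `w` in `W` and all `i, j ≤ 5` the weighted sum of `x_1(v) ^ i x_2(v) ^ j` over the prime ideals `v` with norm at most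
`T` differs from its expected value by at most `T ^ δ` times the sum of `(max 1 (∑ w(v) ^ 2)) ^ (1 / 2)` and of the `|w(v)|` for the `v` whose
norm is not a prime number. -/
def ProductMoments (δ : ℝ) (W : Set (HeightOneSpectrum (𝓞 K) → ℝ)) (T : ℕ) (c : Fin 6 → 𝓞 K) : Prop :=
  ∀ w ∈ W, ∀ i j : ℕ, i ≤ 5 → j ≤ 5 →
    |∑ᶠ v ∈ {v : HeightOneSpectrum (𝓞 K) | Ideal.absNorm v.asIdeal ≤ T}, w v * (x₁ c v ^ i * x₂ c v ^ j - moment i * moment j)| ≤
    (Real.sqrt (max 1 (∑ᶠ v ∈ {v : HeightOneSpectrum (𝓞 K) | Ideal.absNorm v.asIdeal ≤ T}, w v ^ 2)) +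
      ∑ᶠ v ∈ {v : HeightOneSpectrum (𝓞 K) | Ideal.absNorm v.asIdeal ≤ T ∧ ¬ (Ideal.absNorm v.asIdeal).Prime}, |w v|) * (T : ℝ) ^ δ

end

section
variable {K : Type} (L : Type) [Field K] [NumberField K] [Field L] [NumberField L] [Algebra K L]

/-- The prime ideals of `L` above the prime ideal `v` of `K`. -/
def above (v : HeightOneSpectrum (𝓞 K)) : Set (HeightOneSpectrum (𝓞 L)) :=
  {w | w.asIdeal.comap (algebraMap (𝓞 K) (𝓞 L)) = v.asIdeal}

/-- The prime ideal `v` splits in `L`: there are two prime ideals above `v`. -/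
def Split (v : HeightOneSpectrum (𝓞 K)) : Prop := (above L v).ncard = 2

/-- The prime ideal `v` is inert in `L`: there is a prime ideal above `v` whose norm is the square of the norm of `v`. -/
def Inert (v : HeightOneSpectrum (𝓞 K)) : Prop := ∃ w ∈ above L v, Ideal.absNorm w.asIdeal = Ideal.absNorm v.asIdeal ^ 2

open Classical in
/-- The mean of `a_1 ^ i a_2 ^ j` over the component of the Sato-Tate group which belongs to `v`: for `v` split the mean over
`SU(2) × SU(2)`, for `v` inert the mean over the other component (where `a_1 = 0` and `a_2` has the distribution of the traces of the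
matrices in `SU(2)`); for the finitely many ramified `v`, where `a_1` and `a_2` are defined as `0` below, it is `0 ^ i 0 ^ j`. -/
noncomputable def expected (i j : ℕ) (v : HeightOneSpectrum (𝓞 K)) : ℝ :=
  if Split L v then pairMoment i j else if Inert L v then (if i = 0 then moment j else 0) else (if i = 0 ∧ j = 0 then 1 else 0)

end

section
variable {K L : Type} [Field K] [NumberField K] [Field L] [NumberField L] [Algebra K L]

/-- The number `x(w)` for the elliptic curve with the coefficients `c`; here `Rs w = 𝓞 L ⧸ w` is the residue field and `rh w` the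
reduction. -/
noncomputable def x (c : Fin 3 → 𝓞 L) (w : HeightOneSpectrum (𝓞 L)) : ℝ := trace (Rs w) (fun k => rh w (c k))

open Classical in
/-- The coefficient `a_1(v)` of the normalised Euler factor of the Weil restriction: `x(w) + x(w')` for the prime ideals `w`, `w'` above
`v` if `v` splits, and `0` otherwise. -/
noncomputable def a₁ (c : Fin 3 → 𝓞 L) (v : HeightOneSpectrum (𝓞 K)) : ℝ :=
  if Split L v then ∑ᶠ w ∈ above L v, x c w else 0

open Classical in
/-- The coefficient `a_2(v)` of the normalised Euler factor of the Weil restriction: `x(w) x(w') + 2` for the prime ideals `w`, `w'`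
above `v` if `v` splits, `x(w)` for the prime ideal `w` above `v` if `v` is inert, and `0` otherwise. -/
noncomputable def a₂ (c : Fin 3 → 𝓞 L) (v : HeightOneSpectrum (𝓞 K)) : ℝ :=
  if Split L v then (∏ᶠ w ∈ above L v, x c w) + 2 else if Inert L v then ∑ᶠ w ∈ above L v, x c w else 0

/-- For all weights `w` in `W` and all `i, j` with `i + j ≤ 5` the weighted sum of `a_1(v) ^ i a_2(v) ^ j` over the prime ideals `v` of `K` with
norm at most `T` differs from its expected value by at most `T ^ δ` times the sum of `(max 1 (∑ w(v) ^ 2)) ^ (1 / 2)` and of the `|w(v)|` for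
the `v` whose norm is not a prime number. -/
def RestrictionMoments (K : Type) [Field K] [NumberField K] [Algebra K L] (δ : ℝ) (W : Set (HeightOneSpectrum (𝓞 K) → ℝ)) (T : ℕ) (c : Fin 3 → 𝓞 L) : Prop :=
  ∀ w ∈ W, ∀ i j : ℕ, i + j ≤ 5 →
    |∑ᶠ v ∈ {v : HeightOneSpectrum (𝓞 K) | Ideal.absNorm v.asIdeal ≤ T}, w v * (a₁ c v ^ i * a₂ c v ^ j - expected L i j v)| ≤
    (Real.sqrt (max 1 (∑ᶠ v ∈ {v : HeightOneSpectrum (𝓞 K) | Ideal.absNorm v.asIdeal ≤ T}, w v ^ 2)) +
      ∑ᶠ v ∈ {v : HeightOneSpectrum (𝓞 K) | Ideal.absNorm v.asIdeal ≤ T ∧ ¬ (Ideal.absNorm v.asIdeal).Prime}, |w v|) * (T : ℝ) ^ δ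

end

/-- The digit number `i` (counted from the right, beginning with `0`) of `n` in base `b`. -/
def digit (b i n : ℕ) : ℕ := n / b ^ i % b

/-- The number which arises from the number `N` with at most `L` digits in base `b`, if for every `i ∈ S`
the digit number `i` is replaced by `f i`. -/
def change (b L N : ℕ) (f : ℕ → ℕ) (S : Finset ℕ) : ℕ :=
  ∑ i ∈ range L, (if i ∈ S then f i else digit b i N) * b ^ i

open Classical in
/-- The number of the choices of `r j` of `L j` positions for all `j` for which the tuple of the numbers obtained by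
changing the digits of the `N j` at the chosen positions (according to `f j`) does not have the property `P`. -/
noncomputable def exceptions {d : ℕ} (b : ℕ) (L r N : Fin d → ℕ) (f : Fin d → ℕ → ℕ) (P : (Fin d → ℕ) → Prop) : ℕ :=
  ((Fintype.piFinset (fun j => powersetCard (r j) (range (L j)))).filter
    (fun S => ¬ P (fun j => change b (L j) (N j) (f j) (S j)))).card

lemma exc_eq {d : ℕ} (b : ℕ) (L r N : Fin d → ℕ) (f : Fin d → ℕ → ℕ) (P : (Fin d → ℕ) → Prop) :
    exceptions b L r N f P = Pool.Agent.Y57.FD.exceptions b L r N f P := rfl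

lemma moment_eq (i : ℕ) : moment i = Pool.Agent.P8H6.GT.sem i := rfl

attribute [local instance] Pool.Agent.N842.SQ.exFin
attribute [local instance] Pool.Agent.N842.SQ.rsFin

lemma trace_eq (κ : Type) [Field κ] [Fintype κ] (u : Fin 3 → κ) : trace κ u = Pool.Agent.N842.SQ.A 2 3 1 κ u := by
  classical
  rw [Pool.Agent.P8H6.GT.A_eq]
  have h1 : (((2 : ℕ) : κ) ≠ 0 ∧ (Pool.Agent.N842.SQ.fp κ u).Separable) ↔ Smooth κ u := by
    unfold Smooth Pool.Agent.N842.SQ.fp Pool.Agent.N842.SQ.low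
    norm_num
  have h2 : (points κ u : ℝ) = (Nat.card κ : ℝ) + 1 + ∑ x : κ, Pool.Agent.N842.ST.nu 2 ((Pool.Agent.N842.SQ.fp κ u).eval x) := by
    have h3 := Pool.Agent.N842.SQ.points_eq κ 2 u
    unfold Pool.Agent.N842.SQ.points at h3
    have h4 : ∀ x : κ, (Pool.Agent.N842.SQ.fp κ u).eval x = x ^ 3 + ∑ i, u i * x ^ (i : ℕ) := by
      intro x
      unfold Pool.Agent.N842.SQ.fp Pool.Agent.N842.SQ.low
      simp [Polynomial.eval_finsetSum]
    simp only [h4]
    unfold points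
    push_cast
    rw [h3, Nat.card_eq_fintype_card]
    ring
  unfold trace
  by_cases h : Smooth κ u
  · rw [if_pos h, if_pos (h1.2 h), h2, Nat.card_eq_fintype_card, add_sub_cancel_left]
  · rw [if_neg h, if_neg (fun h' => h (h1.1 h'))]

section
variable {K : Type} [Field K] [NumberField K]

open Classical in
lemma fin_eq (T : ℕ) (F : HeightOneSpectrum (𝓞 K) → ℝ) :
    ∑ᶠ v ∈ {v : HeightOneSpectrum (𝓞 K) | Ideal.absNorm v.asIdeal ≤ T}, F v = ∑ v ∈ Pool.Agent.N842.HS.VT K T, F v := by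
  have h2 : {v : HeightOneSpectrum (𝓞 K) | Ideal.absNorm v.asIdeal ≤ T} =
      ((Pool.Agent.N842.HS.VT K T : Finset (HeightOneSpectrum (𝓞 K))) : Set (HeightOneSpectrum (𝓞 K))) := by
    ext v
    rw [mem_coe, Pool.Agent.N842.HS.mem_VT, Set.mem_ofPred_eq]
  rw [h2, finsum_mem_coe_finset]

open Classical in
lemma fin_eq' (T : ℕ) (F : HeightOneSpectrum (𝓞 K) → ℝ) :
    ∑ᶠ v ∈ {v : HeightOneSpectrum (𝓞 K) | Ideal.absNorm v.asIdeal ≤ T ∧ ¬ (Ideal.absNorm v.asIdeal).Prime}, F v =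
      ∑ v ∈ (Pool.Agent.N842.HS.VT K T).filter (fun v => ¬ (Ideal.absNorm v.asIdeal).Prime), F v := by
  have h2 : {v : HeightOneSpectrum (𝓞 K) | Ideal.absNorm v.asIdeal ≤ T ∧ ¬ (Ideal.absNorm v.asIdeal).Prime} =
      (((Pool.Agent.N842.HS.VT K T).filter (fun v => ¬ (Ideal.absNorm v.asIdeal).Prime) : Finset (HeightOneSpectrum (𝓞 K))) :
        Set (HeightOneSpectrum (𝓞 K))) := by
    ext v
    rw [mem_coe, mem_filter, Pool.Agent.N842.HS.mem_VT, Set.mem_ofPred_eq]
  rw [h2, finsum_mem_coe_finset]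

end

lemma x_eq {L : Type} [Field L] [NumberField L] (c : Fin 3 → 𝓞 L) : x c = Pool.Agent.P8H6.GT.xw c := by
  funext w
  unfold x Pool.Agent.P8H6.GT.xw
  exact trace_eq (Rs w) _

section
variable {K L : Type} [Field K] [NumberField K] [Field L] [NumberField L] [Algebra K L]

lemma a₁_eq (c : Fin 3 → 𝓞 L) (v : HeightOneSpectrum (𝓞 K)) : a₁ c v = Pool.Agent.P8H6.GT.b1 c v := by
  unfold a₁ Pool.Agent.P8H6.GT.b1
  rw [x_eq]
  rfl

lemma a₂_eq (c : Fin 3 → 𝓞 L) (v : HeightOneSpectrum (𝓞 K)) : a₂ c v = Pool.Agent.P8H6.GT.b2 c v := by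
  unfold a₂ Pool.Agent.P8H6.GT.b2
  rw [x_eq]
  rfl

lemma expected_eq (i j : ℕ) (v : HeightOneSpectrum (𝓞 K)) : expected L i j v = Pool.Agent.P8H6.GT.ev L i j v := rfl

end

/-- Part (1). -/
theorem products {K : Type} [Field K] [NumberField K] {g : ℕ} (ω : Fin g → 𝓞 K) (hω : (1 : 𝓞 K) ∈ Submodule.span ℤ (Set.range ω))
    (b : ℕ) (hb : 2 ≤ b) (δ : ℝ) (hδ : 0 < δ) (A B : ℕ) :
    ∃ c : ℝ, 0 < c ∧ ∃ y₀ : ℕ, ∀ (L r : Fin (6 * g) → ℕ) (y : ℕ), (∀ l, 2 * r l ≤ L l) → y₀ ≤ y →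
    ∀ N : Fin (6 * g) → ℕ, (∀ l, N l < b ^ L l) →
    ∀ f : Fin (6 * g) → ℕ → ℕ, (∀ l j, f l j < b ∧ f l j ≠ digit b j (N l)) →
    ∀ W : ℕ → Set (HeightOneSpectrum (𝓞 K) → ℝ), (∀ T, (W T).Finite ∧ (W T).ncard ≤ T ^ B) → (∀ T, ∀ w ∈ W T, ∀ v, |w v| ≤ 1) →
      (exceptions b L r N f
        (fun m => ∀ T : ℕ, y ≤ T → (∀ l, (T : ℝ) ≤ Real.exp (c * r l)) → ProductMoments δ (W T) T (coeff ω m)) : ℝ) ≤
        1 / (y : ℝ) ^ A * ∏ l, ((L l).choose (r l) : ℝ) := by
  classical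
  obtain ⟨c, hc, y₀, h⟩ := Pool.Agent.P8H6.GT.finalP Pool.Agent.P8H20.GT.cel b g ω hω hb δ hδ A B
  refine ⟨c, hc, y₀, fun L r y hrL hy N hN f hf W hW hW1 => ?_⟩
  rw [exc_eq]
  refine h L r y hrL hy N hN f hf W hW hW1 _ fun m hm => ?_
  intro T hyT hTr w hw i j hi hj
  rw [fin_eq, fin_eq, fin_eq']
  simp only [x₁, x₂, trace_eq, moment_eq]
  exact hm T hyT hTr w hw i j hi hj

/-- Part (2). -/
theorem restrictions {K L : Type} [Field K] [NumberField K] [Field L] [NumberField L] [Algebra K L] (hKL : Module.finrank K L = 2) {g : ℕ}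
    (ω : Fin g → 𝓞 L) (hω : Submodule.span ℤ (Set.range ω) = ⊤) (b : ℕ) (hb : 2 ≤ b) (δ : ℝ) (hδ : 0 < δ) (A B : ℕ) :
    ∃ c : ℝ, 0 < c ∧ ∃ y₀ : ℕ, ∀ (D r : Fin (3 * g) → ℕ) (y : ℕ), (∀ l, 2 * r l ≤ D l) → y₀ ≤ y →
    ∀ N : Fin (3 * g) → ℕ, (∀ l, N l < b ^ D l) →
    ∀ f : Fin (3 * g) → ℕ → ℕ, (∀ l j, f l j < b ∧ f l j ≠ digit b j (N l)) →
    ∀ W : ℕ → Set (HeightOneSpectrum (𝓞 K) → ℝ), (∀ T, (W T).Finite ∧ (W T).ncard ≤ T ^ B) → (∀ T, ∀ w ∈ W T, ∀ v, |w v| ≤ 1) →
      (exceptions b D r N f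
        (fun m => ∀ T : ℕ, y ≤ T → (∀ l, (T : ℝ) ≤ Real.exp (c * r l)) → RestrictionMoments K δ (W T) T (coeff ω m)) : ℝ) ≤
        1 / (y : ℝ) ^ A * ∏ l, ((D l).choose (r l) : ℝ) := by
  classical
  obtain ⟨c, hc, y₀, h⟩ := Pool.Agent.P8H6.GT.finalC (K := K) (Pool.Agent.P8H20.GT.cml Pool.Agent.P8H20.GT.cel Pool.Agent.P8H44.GT.CAB.thm) (Pool.Agent.P8H20.GT.cbd Pool.Agent.P8H44.GT.CAB.thm)
    Pool.Agent.P8H20.GT.cpe hKL b g ω hω hb δ hδ A B
  refine ⟨c, hc, y₀, fun D r y hrL hy N hN f hf W hW hW1 => ?_⟩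
  rw [exc_eq]
  refine h D r y hrL hy N hN f hf W hW hW1 _ fun m hm => ?_
  intro T hyT hTr w hw i j hij
  rw [fin_eq, fin_eq, fin_eq']
  simp only [a₁_eq, a₂_eq, expected_eq]
  exact hm T hyT hTr w hw i j hij

/-- For all `b ≥ 2`, `δ > 0` and integers `A, B ≥ 0` there are `c > 0` and `y₀` (depending also on the number fields and on `ω`) such that the
following holds for all `y ≥ y₀`, arbitrary integers `0 ≤ N l < b ^ L l`, numbers `r l` with `2 r l ≤ L l`, all prescriptions of digits `f l j`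
different from the digits of the `N l`, and for arbitrary sets `W T` of at most `T ^ B` weights `w` with `|w(v)| ≤ 1` on the prime ideals of `K`.
Choose `r l` of the `L l` positions and replace the digits of `N l` at these positions by the prescribed ones. For all but at most a proportion
`1 / y ^ A` of the choices the following holds for the `c_k = ∑ m_(k,j) ω_j` formed with the numbers `m` obtained, for all `T` with
`y ≤ T ≤ exp (c r l)` for all `l` and all weights `w ∈ W T`.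

(1) (`K` a number field, `1 ∈ ∑ ℤ ω_j ⊆ 𝓞 K`.) For `E_1 : Y ^ 2 = X ^ 3 + c_2 X ^ 2 + c_1 X + c_0` and `E_2 : Y ^ 2 = X ^ 3 + c_5 X ^ 2 + c_4 X + c_3` and
all `i, j ≤ 5` the sum `∑ w(v) x_1(v) ^ i x_2(v) ^ j` over the prime ideals with norm at most `T` differs from `∑ w(v)` times the mean of
`x_1 ^ i x_2 ^ j` over `SU(2) × SU(2)` by at most `T ^ δ ((max 1 (∑ w(v) ^ 2)) ^ (1 / 2) + ∑' |w(v)|)`, where `∑'` is the sum over the prime ideals
whose norm is at most `T` and not a prime number.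

(2) (`L / K` a quadratic extension of number fields, `𝓞 L = ∑ ℤ ω_j`.) For the Weil restriction from `L` to `K` of
`E : Y ^ 2 = X ^ 3 + c_2 X ^ 2 + c_1 X + c_0` and all `i, j` with `i + j ≤ 5` the sum `∑ w(v) a_1(v) ^ i a_2(v) ^ j` over the prime ideals `v` of `K`
with norm at most `T` differs from `∑ w(v) expected(v)` by at most the same bound. -/
theorem result :
    (∀ (K : Type) [Field K] [NumberField K] (g : ℕ) (ω : Fin g → 𝓞 K), (1 : 𝓞 K) ∈ Submodule.span ℤ (Set.range ω) →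
      ∀ b : ℕ, 2 ≤ b → ∀ δ : ℝ, 0 < δ → ∀ A B : ℕ,
      ∃ c : ℝ, 0 < c ∧ ∃ y₀ : ℕ, ∀ (L r : Fin (6 * g) → ℕ) (y : ℕ), (∀ l, 2 * r l ≤ L l) → y₀ ≤ y →
      ∀ N : Fin (6 * g) → ℕ, (∀ l, N l < b ^ L l) →
      ∀ f : Fin (6 * g) → ℕ → ℕ, (∀ l j, f l j < b ∧ f l j ≠ digit b j (N l)) →
      ∀ W : ℕ → Set (HeightOneSpectrum (𝓞 K) → ℝ), (∀ T, (W T).Finite ∧ (W T).ncard ≤ T ^ B) → (∀ T, ∀ w ∈ W T, ∀ v, |w v| ≤ 1) →
        (exceptions b L r N f
          (fun m => ∀ T : ℕ, y ≤ T → (∀ l, (T : ℝ) ≤ Real.exp (c * r l)) → ProductMoments δ (W T) T (coeff ω m)) : ℝ) ≤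
          1 / (y : ℝ) ^ A * ∏ l, ((L l).choose (r l) : ℝ)) ∧
    ∀ (K L : Type) [Field K] [NumberField K] [Field L] [NumberField L] [Algebra K L], Module.finrank K L = 2 →
      ∀ (g : ℕ) (ω : Fin g → 𝓞 L), Submodule.span ℤ (Set.range ω) = ⊤ → ∀ b : ℕ, 2 ≤ b → ∀ δ : ℝ, 0 < δ → ∀ A B : ℕ,
      ∃ c : ℝ, 0 < c ∧ ∃ y₀ : ℕ, ∀ (D r : Fin (3 * g) → ℕ) (y : ℕ), (∀ l, 2 * r l ≤ D l) → y₀ ≤ y →
      ∀ N : Fin (3 * g) → ℕ, (∀ l, N l < b ^ D l) →
      ∀ f : Fin (3 * g) → ℕ → ℕ, (∀ l j, f l j < b ∧ f l j ≠ digit b j (N l)) →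
      ∀ W : ℕ → Set (HeightOneSpectrum (𝓞 K) → ℝ), (∀ T, (W T).Finite ∧ (W T).ncard ≤ T ^ B) → (∀ T, ∀ w ∈ W T, ∀ v, |w v| ≤ 1) →
        (exceptions b D r N f
          (fun m => ∀ T : ℕ, y ≤ T → (∀ l, (T : ℝ) ≤ Real.exp (c * r l)) → RestrictionMoments K δ (W T) T (coeff ω m)) : ℝ) ≤
          1 / (y : ℝ) ^ A * ∏ l, ((D l).choose (r l) : ℝ) := by
  refine ⟨?_, ?_⟩
  · intro K _ _ g ω hω b hb δ hδ A B
    exact products ω hω b hb δ hδ A B
  · intro K L _ _ _ _ _ hKL g ω hω b hb δ hδ A B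
    exact restrictions hKL ω hω b hb δ hδ A B

end Pool.Agent.Results.MP_6dc561_nt.ProductsAndRestrictions
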